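import Mathlib

/-!
# 1-bridge braids: definitions

Closed braids are treated through the Artin braid groups and Markov moves (theorems of Alexander and
Markov); the Alexander polynomial of a closed braid is a minor of `1 - ψ`, `ψ` the Burau matrix.
`BraidGroup m` is the braid group on `m + 1` strands, with generators `0, ..., m - 1`.
-/

set_option autoImplicit false

namespace Pool.Agent.Helper62.OB

open Polynomial LaurentPolynomial

/-! ### Braids, closures, knots -/

/-- The Artin relations for the braid group on `m + 1` strands, with generators `0, ..., m - 1`. -/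
def artinRels (m : ℕ) : Set (FreeGroup (Fin m)) :=
  {r | ∃ i j : Fin m,
      (i.val + 1 = j.val ∧
        r = FreeGroup.of i * FreeGroup.of j * FreeGroup.of i *
          (FreeGroup.of j * FreeGroup.of i * FreeGroup.of j)⁻¹) ∨
      (i.val + 2 ≤ j.val ∧
        r = FreeGroup.of i * FreeGroup.of j * (FreeGroup.of j * FreeGroup.of i)⁻¹)}

/-- The braid group on `m + 1` strands. -/
abbrev BraidGroup (m : ℕ) : Type := PresentedGroup (artinRels m)

/-- The Artin generator number `i` (crossing the strands `i` and `i + 1`). -/
def sigma {m : ℕ} (i : Fin m) : BraidGroup m := PresentedGroup.of i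

theorem artin_braid {m : ℕ} (i j : Fin m) (h : i.val + 1 = j.val) :
    sigma i * sigma j * sigma i = sigma j * sigma i * sigma j := by
  have : (PresentedGroup.mk (artinRels m)) (FreeGroup.of i * FreeGroup.of j * FreeGroup.of i *
          (FreeGroup.of j * FreeGroup.of i * FreeGroup.of j)⁻¹) = 1 :=
    PresentedGroup.one_of_mem ⟨i, j, Or.inl ⟨h, rfl⟩⟩
  rw [map_mul, map_inv, mul_inv_eq_one] at this
  simpa [sigma, PresentedGroup.of] using this

theorem artin_comm {m : ℕ} (i j : Fin m) (h : i.val + 2 ≤ j.val) :
    sigma i * sigma j = sigma j * sigma i := by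
  have : (PresentedGroup.mk (artinRels m)) (FreeGroup.of i * FreeGroup.of j *
          (FreeGroup.of j * FreeGroup.of i)⁻¹) = 1 :=
    PresentedGroup.one_of_mem ⟨i, j, Or.inr ⟨h, rfl⟩⟩
  rw [map_mul, map_inv, mul_inv_eq_one] at this
  simpa [sigma, PresentedGroup.of] using this

/-- A homomorphism from the braid group, given by elements that satisfy the Artin relations. -/
def braidLift {m : ℕ} {G : Type*} [Group G] (f : Fin m → G)
    (h1 : ∀ i j : Fin m, i.val + 1 = j.val → f i * f j * f i = f j * f i * f j)
    (h2 : ∀ i j : Fin m, i.val + 2 ≤ j.val → f i * f j = f j * f i) : BraidGroup m →* G :=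
  PresentedGroup.toGroup (f := f) (by
    rintro r ⟨i, j, ⟨h, rfl⟩ | ⟨h, rfl⟩⟩
    · simp only [map_mul, map_inv, FreeGroup.lift_apply_of]
      rw [mul_inv_eq_one]
      exact h1 _ _ h
    · simp only [map_mul, map_inv, FreeGroup.lift_apply_of]
      rw [mul_inv_eq_one]
      exact h2 _ _ h)

theorem braidLift_sigma {m : ℕ} {G : Type*} [Group G] (f : Fin m → G)
    (h1 : ∀ i j : Fin m, i.val + 1 = j.val → f i * f j * f i = f j * f i * f j)
    (h2 : ∀ i j : Fin m, i.val + 2 ≤ j.val → f i * f j = f j * f i) (i : Fin m) :
    braidLift f h1 h2 (sigma i) = f i := PresentedGroup.toGroup.of _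

/-- The homomorphism that adds one trivial strand on the right. -/
def addStrand (m : ℕ) : BraidGroup m →* BraidGroup (m + 1) :=
  braidLift (fun i : Fin m => sigma i.castSucc)
    (fun _ _ h => artin_braid _ _ h) (fun _ _ h => artin_comm _ _ h)

/-- The Markov moves on braids with any number of strands: conjugation, and stabilisation with a
positive or a negative crossing. -/
inductive MarkovMove : (Σ m : ℕ, BraidGroup m) → (Σ m : ℕ, BraidGroup m) → Prop
  | conj (m : ℕ) (a b : BraidGroup m) : MarkovMove ⟨m, a⟩ ⟨m, b * a * b⁻¹⟩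
  | stabPos (m : ℕ) (a : BraidGroup m) :
      MarkovMove ⟨m, a⟩ ⟨m + 1, addStrand m a * sigma (Fin.last m)⟩
  | stabNeg (m : ℕ) (a : BraidGroup m) :
      MarkovMove ⟨m, a⟩ ⟨m + 1, addStrand m a * (sigma (Fin.last m))⁻¹⟩

/-- Two braids are Markov equivalent; by the theorem of Markov this means that their closures are
the same oriented link. -/
def SameClosure : (Σ m : ℕ, BraidGroup m) → (Σ m : ℕ, BraidGroup m) → Prop :=
  Relation.EqvGen MarkovMove

/-- The permutation of the strands. -/
def permHom (m : ℕ) : BraidGroup m →* Equiv.Perm (Fin (m + 1)) :=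
  braidLift (fun i : Fin m => Equiv.swap i.castSucc i.succ)
    (by
      intro i j h
      have e : i.succ = j.castSucc := by
        apply Fin.ext
        simpa using h
      rw [e]
      have n1 : i.castSucc ≠ j.castSucc := by
        intro h1
        have := congrArg Fin.val h1
        simp at this
        omega
      have n2 : i.castSucc ≠ j.succ := by
        intro h1
        have := congrArg Fin.val h1
        simp at this
        omega
      have n3 : j.castSucc ≠ j.succ := by
        intro h1
        have := congrArg Fin.val h1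
        simp at this
      ext x
      simp only [Equiv.Perm.coe_mul, Function.comp_apply, Equiv.swap_apply_def]
      split_ifs <;> simp_all)
    (by
      intro i j h
      have n1 : i.castSucc ≠ j.castSucc := by
        intro h1
        have := congrArg Fin.val h1
        simp at this
        omega
      have n2 : i.castSucc ≠ j.succ := by
        intro h1
        have := congrArg Fin.val h1
        simp at this
        omega
      have n3 : i.succ ≠ j.castSucc := by
        intro h1
        have := congrArg Fin.val h1
        simp at this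
        omega
      have n4 : i.succ ≠ j.succ := by
        intro h1
        have := congrArg Fin.val h1
        simp at this
        omega
      exact (Equiv.Perm.Disjoint.commute (by
        rw [Equiv.Perm.disjoint_iff_eq_or_eq]
        intro x
        simp only [Equiv.swap_apply_def]
        split_ifs <;> simp_all)).eq)

/-- The closure of the braid is a knot: its permutation has one cycle. -/
def IsKnot {m : ℕ} (β : BraidGroup m) : Prop := ∀ i j, (permHom m β).SameCycle i j

/-- The generator number `i` (the trivial braid when there is no such generator). -/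
def sg (m i : ℕ) : BraidGroup m := if h : i < m then sigma ⟨i, h⟩ else 1

/-- The run `σ_{a+n-1} ⋯ σ_{a+1} σ_a`. -/
def rn (m a : ℕ) : ℕ → BraidGroup m
  | 0 => 1
  | n + 1 => sg m (a + n) * rn m a n

/-- The 1-bridge braid `B(w, b, t) = (σ_b ⋯ σ_1) (σ_{w-1} ⋯ σ_1)^t` on `w = m + 1` strands
(generators numbered from `0` here). -/
def oneBridge (m b t : ℕ) : BraidGroup m := rn m 0 b * rn m 0 m ^ t

/-! ### Iterated torus knots -/

/-- The positive crossing of the `i`-th block of `n` parallel strands with the next block:
`n²` crossings, none between two strands of the same block. -/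
def blk (n M i : ℕ) : BraidGroup M := ((List.range n).map fun k => rn M (i * n + k) n).prod

/-- The braid given by a word in the generators and their inverses. -/
def word {m : ℕ} (L : List (Fin m × Bool)) : BraidGroup m :=
  (L.map fun p => if p.2 then sigma p.1 else (sigma p.1)⁻¹).prod

/-- The braid word with every strand replaced by `n` parallel strands. -/
def cabled {m : ℕ} (n M : ℕ) (L : List (Fin m × Bool)) : BraidGroup M :=
  (L.map fun p => if p.2 then blk n M p.1 else (blk n M p.1)⁻¹).prod

/-- The closure of the braid is an iterated torus knot: it arises from the unknot by finitely many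
cabling operations. The cable runs `n` times parallel to the given closed braid, with the pattern
`(σ_{n-2} ⋯ σ_0)^k`, `k` prime to `n`, inserted in the first `n` strands. -/
inductive IsIterTorus : (Σ m : ℕ, BraidGroup m) → Prop
  | unknot : IsIterTorus ⟨0, 1⟩
  | cable (m n M : ℕ) (k : ℤ) (L : List (Fin m × Bool)) (hn : 0 < n) (hM : M + 1 = n * (m + 1))
      (hk : IsCoprime (n : ℤ) k) (h : IsIterTorus ⟨m, word L⟩) :
      IsIterTorus ⟨M, cabled n M L * rn M 0 (n - 1) ^ k⟩
  | markov (x y : Σ m : ℕ, BraidGroup m) (h : SameClosure x y) (hx : IsIterTorus x) :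
      IsIterTorus y

/-! ### The Burau representation and the Alexander polynomial -/

section burau

variable {R : Type*} [CommRing R]

/-- The column vector with the entries `-t, 1` in the places `i, i + 1`. -/
def bcol (m : ℕ) (t : R) (i : Fin m) : Fin (m + 1) → R :=
  fun a => if a = i.castSucc then -t else if a = i.succ then 1 else 0

/-- The row vector with the entries `1, -1` in the places `i, i + 1`. -/
def brow (m : ℕ) (i : Fin m) : Fin (m + 1) → R :=
  fun a => if a = i.castSucc then 1 else if a = i.succ then -1 else 0

/-- The Burau matrix of the generator `i`: the identity matrix with the block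
`[[1 - t, t], [1, 0]]` in the places `i, i + 1`. -/
def bmat (m : ℕ) (t : R) (i : Fin m) : Matrix (Fin (m + 1)) (Fin (m + 1)) R :=
  1 + Matrix.vecMulVec (bcol m t i) (brow m i)

/-- The inverse Burau matrix, `s = t⁻¹`. -/
def bmatInv (m : ℕ) (t s : R) (i : Fin m) : Matrix (Fin (m + 1)) (Fin (m + 1)) R :=
  1 + s • Matrix.vecMulVec (bcol m t i) (brow m i)

theorem brow_dot (m : ℕ) (i : Fin m) (f : Fin (m + 1) → R) :
    brow m i ⬝ᵥ f = f i.castSucc - f i.succ := by
  have n1 : i.castSucc ≠ i.succ := by
    intro h1
    have := congrArg Fin.val h1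
    simp at this
  have h : (brow m i : Fin (m + 1) → R) = Pi.single i.castSucc 1 - Pi.single i.succ 1 := by
    funext a
    rw [Pi.sub_apply, Pi.single_apply, Pi.single_apply, brow]
    by_cases h1 : a = i.castSucc
    · rw [if_pos h1, if_pos h1, if_neg (fun h2 => n1 (h1.symm.trans h2)), sub_zero]
    · rw [if_neg h1, if_neg h1]
      by_cases h2 : a = i.succ
      · rw [if_pos h2, if_pos h2, zero_sub]
      · rw [if_neg h2, if_neg h2, sub_zero]
  rw [h, sub_dotProduct, single_dotProduct, single_dotProduct, one_mul, one_mul]

theorem brow_bcol_self (m : ℕ) (t : R) (i : Fin m) : brow m i ⬝ᵥ bcol m t i = -(1 + t) := by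
  have n1 : i.succ ≠ i.castSucc := by
    intro h1
    have := congrArg Fin.val h1
    simp at this
  rw [brow_dot, bcol, bcol, if_pos rfl, if_neg n1, if_pos rfl]
  ring

theorem brow_bcol_succ (m : ℕ) (t : R) (i j : Fin m) (h : i.val + 1 = j.val) :
    brow m i ⬝ᵥ bcol m t j = t := by
  have e : i.succ = j.castSucc := by
    apply Fin.ext
    simpa using h
  have n1 : i.castSucc ≠ j.castSucc := by
    intro h1
    have := congrArg Fin.val h1
    simp at this
    omega
  have n2 : i.castSucc ≠ j.succ := by
    intro h1
    have := congrArg Fin.val h1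
    simp at this
    omega
  rw [brow_dot, bcol, bcol, if_neg n1, if_neg n2, if_pos e]
  ring

theorem brow_bcol_pred (m : ℕ) (t : R) (i j : Fin m) (h : i.val + 1 = j.val) :
    brow m j ⬝ᵥ bcol m t i = 1 := by
  have e : i.succ = j.castSucc := by
    apply Fin.ext
    simpa using h
  have n1 : j.castSucc ≠ i.castSucc := by
    intro h1
    have := congrArg Fin.val h1
    simp at this
    omega
  have n2 : j.succ ≠ i.castSucc := by
    intro h1
    have := congrArg Fin.val h1
    simp at this
    omega
  have n3 : j.succ ≠ i.succ := by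
    intro h1
    have := congrArg Fin.val h1
    simp at this
    omega
  rw [brow_dot, bcol, bcol, if_neg n1, if_pos e.symm, if_neg n2, if_neg n3]
  ring

theorem brow_bcol_far (m : ℕ) (t : R) (i j : Fin m)
    (h : i.val + 2 ≤ j.val ∨ j.val + 2 ≤ i.val) : brow m i ⬝ᵥ bcol m t j = 0 := by
  have n1 : i.castSucc ≠ j.castSucc := by
    intro h1
    have := congrArg Fin.val h1
    simp at this
    omega
  have n2 : i.castSucc ≠ j.succ := by
    intro h1
    have := congrArg Fin.val h1
    simp at this
    omega
  have n3 : i.succ ≠ j.castSucc := by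
    intro h1
    have := congrArg Fin.val h1
    simp at this
    omega
  have n4 : i.succ ≠ j.succ := by
    intro h1
    have := congrArg Fin.val h1
    simp at this
    omega
  rw [brow_dot, bcol, bcol, if_neg n1, if_neg n2, if_neg n3, if_neg n4, sub_zero]

theorem bmat_sq (m : ℕ) (t : R) (i : Fin m) :
    Matrix.vecMulVec (bcol m t i) (brow m i) * Matrix.vecMulVec (bcol m t i) (brow m i) =
      (-(1 + t)) • Matrix.vecMulVec (bcol m t i) (brow m i) := by
  rw [Matrix.vecMulVec_mul_vecMulVec, brow_bcol_self, Matrix.vecMulVec_smul]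

theorem bmat_mul_inv (m : ℕ) (t s : R) (h : s * t = 1) (i : Fin m) :
    bmat m t i * bmatInv m t s i = 1 := by
  have h1 := bmat_sq m t i
  unfold bmat bmatInv
  generalize Matrix.vecMulVec (bcol m t i) (brow m i) = A at h1 ⊢
  have h2 : (1 + A) * (1 + s • A) = 1 + A + (s • A + s • (A * A)) := by
    rw [add_mul, one_mul, mul_add, mul_one, mul_smul_comm]
    abel
  rw [h2, h1, smul_smul]
  have h3 : 1 + A + (s • A + (s * -(1 + t)) • A) = 1 + (1 - s * t) • A := by module
  rw [h3, h, sub_self, zero_smul, add_zero]

theorem bmatInv_mul (m : ℕ) (t s : R) (h : s * t = 1) (i : Fin m) :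
    bmatInv m t s i * bmat m t i = 1 := by
  have h1 := bmat_sq m t i
  unfold bmat bmatInv
  generalize Matrix.vecMulVec (bcol m t i) (brow m i) = A at h1 ⊢
  have h2 : (1 + s • A) * (1 + A) = 1 + A + (s • A + s • (A * A)) := by
    rw [add_mul, one_mul, smul_mul_assoc, mul_add, mul_one, smul_add]
  rw [h2, h1, smul_smul]
  have h3 : 1 + A + (s • A + (s * -(1 + t)) • A) = 1 + (1 - s * t) • A := by module
  rw [h3, h, sub_self, zero_smul, add_zero]

theorem bmat_braid (m : ℕ) (t : R) (i j : Fin m) (h : i.val + 1 = j.val) :
    bmat m t i * bmat m t j * bmat m t i = bmat m t j * bmat m t i * bmat m t j := by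
  unfold bmat
  generalize hA : Matrix.vecMulVec (bcol m t i) (brow m i) = A
  generalize hB : Matrix.vecMulVec (bcol m t j) (brow m j) = B
  have hAA : A * A = (-(1 + t)) • A := by
    rw [← hA, Matrix.vecMulVec_mul_vecMulVec, brow_bcol_self, Matrix.vecMulVec_smul]
  have hBB : B * B = (-(1 + t)) • B := by
    rw [← hB, Matrix.vecMulVec_mul_vecMulVec, brow_bcol_self, Matrix.vecMulVec_smul]
  have hABA : A * B * A = t • A := by
    rw [← hA, ← hB, Matrix.vecMulVec_mul_vecMulVec, brow_bcol_succ m t i j h,
      Matrix.vecMulVec_mul_vecMulVec, smul_dotProduct, brow_bcol_pred m t i j h,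
      Matrix.vecMulVec_smul, smul_eq_mul, mul_one]
  have hBAB : B * A * B = t • B := by
    rw [← hA, ← hB, Matrix.vecMulVec_mul_vecMulVec, brow_bcol_pred m t i j h,
      Matrix.vecMulVec_mul_vecMulVec, smul_dotProduct, brow_bcol_succ m t i j h,
      Matrix.vecMulVec_smul, smul_eq_mul, one_mul]
  have e1 : (1 + A) * (1 + B) * (1 + A) =
      1 + A + A + B + A * A + A * B + B * A + A * B * A := by noncomm_ring
  have e2 : (1 + B) * (1 + A) * (1 + B) =
      1 + B + B + A + B * B + B * A + A * B + B * A * B := by noncomm_ring
  rw [e1, e2, hAA, hBB, hABA, hBAB]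
  module

theorem bmat_comm (m : ℕ) (t : R) (i j : Fin m) (h : i.val + 2 ≤ j.val) :
    bmat m t i * bmat m t j = bmat m t j * bmat m t i := by
  unfold bmat
  generalize hA : Matrix.vecMulVec (bcol m t i) (brow m i) = A
  generalize hB : Matrix.vecMulVec (bcol m t j) (brow m j) = B
  have hAB : A * B = 0 := by
    rw [← hA, ← hB, Matrix.vecMulVec_mul_vecMulVec, brow_bcol_far m t i j (Or.inl h), zero_smul,
      Matrix.vecMulVec_zero]
  have hBA : B * A = 0 := by
    rw [← hA, ← hB, Matrix.vecMulVec_mul_vecMulVec, brow_bcol_far m t j i (Or.inr h), zero_smul,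
      Matrix.vecMulVec_zero]
  have e1 : (1 + A) * (1 + B) = 1 + A + B + A * B := by noncomm_ring
  have e2 : (1 + B) * (1 + A) = 1 + A + B + B * A := by noncomm_ring
  rw [e1, e2, hAB, hBA]

end burau

/-- The unreduced Burau representation, with values in the invertible matrices over `ℤ[T;T⁻¹]`. -/
noncomputable def burau (m : ℕ) :
    BraidGroup m →* (Matrix (Fin (m + 1)) (Fin (m + 1)) ℤ[T;T⁻¹])ˣ :=
  braidLift
    (fun i : Fin m => ⟨bmat m (T 1) i, bmatInv m (T 1) (T (-1)) i,
      bmat_mul_inv m _ _ (by rw [← T_add]; rfl) i, bmatInv_mul m _ _ (by rw [← T_add]; rfl) i⟩)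
    (fun i j h => Units.ext (bmat_braid m (T 1) i j h))
    (fun i j h => Units.ext (bmat_comm m (T 1) i j h))

/-- The Alexander polynomial of the closure of the braid (up to a unit `± T^k`): the determinant of
`1 - ψ` with its first row and column deleted, `ψ` the Burau matrix of the braid. -/
noncomputable def alexander {m : ℕ} (β : BraidGroup m) : ℤ[T;T⁻¹] :=
  ((1 - (burau m β : Matrix (Fin (m + 1)) (Fin (m + 1)) ℤ[T;T⁻¹])).submatrix
    Fin.succ Fin.succ).det

/-- Equality up to multiplication by a unit `± T^k`. -/
def UpToUnit (f g : ℤ[T;T⁻¹]) : Prop := ∃ k : ℤ, f = T k * g ∨ f = -(T k * g)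

/-- `Δ` is a product of cyclotomic polynomials (repetitions allowed) up to a unit `± T^k`. -/
def IsCyclotomicProduct (Δ : ℤ[T;T⁻¹]) : Prop :=
  ∃ M : Multiset ℕ, (∀ N ∈ M, 0 < N) ∧
    UpToUnit Δ (toLaurent (M.map (fun N => cyclotomic N ℤ)).prod)

/-! ### The exponents -/

/-- The places visited by the first strand of the braid `B(w, b, t)`. -/
def xs (w b t : ℕ) : ℕ → ℕ
  | 0 => t % w
  | k + 1 => ((if xs w b t k < b then xs w b t k + 1 else if xs w b t k = b then 0
      else xs w b t k) + t) % w

/-- `1` when the strand passes under the bridge in step `k`, `0` otherwise. -/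
def ep (w b t k : ℕ) : ℕ := if xs w b t k < b then 1 else 0

/-- The exponents `s_k`. -/
def se (w b t k : ℕ) : ℕ := k * t + ∑ j ∈ Finset.range k, ep w b t j

/-- The places `0, ..., w - 1` are all visited, `b` in the last step. -/
def Orb (w b t : ℕ) : Prop :=
  (∀ i < w, ∀ j < w, xs w b t i = xs w b t j → i = j) ∧ xs w b t (w - 1) = b

end Pool.Agent.Helper62.OB
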