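import Mathlib

/-!
# Trigonometric sums: basic facts

`sn N n = sin (π n / N)`, `cn N n = cos (π n / N)` for integers `n`.
-/

set_option autoImplicit false

namespace Pool.Agent.Helper62.OB

open Finset

/-- `sin (π n / N)` -/
noncomputable def sn (N : ℕ) (n : ℤ) : ℝ := Real.sin (Real.pi / N * n)

/-- `cos (π n / N)` -/
noncomputable def cn (N : ℕ) (n : ℤ) : ℝ := Real.cos (Real.pi / N * n)

/-- the sum of the first `i` terms -/
def pS (α : ℕ → ℕ) (i : ℕ) : ℕ := ∑ j ∈ range i, α j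

theorem pS_zero (α : ℕ → ℕ) : pS α 0 = 0 := rfl

theorem pS_succ (α : ℕ → ℕ) (i : ℕ) : pS α (i + 1) = pS α i + α i := sum_range_succ _ _

theorem pS_mono (α : ℕ → ℕ) {i j : ℕ} (h : i ≤ j) : pS α i ≤ pS α j :=
  sum_le_sum_of_subset (range_subset_range.2 h)

theorem two_sn_cn (N : ℕ) (a b : ℤ) : 2 * sn N a * cn N b = sn N (a + b) - sn N (b - a) := by
  unfold sn cn
  have h1 : (Real.pi / N * ((a + b : ℤ) : ℝ)) = Real.pi / N * b + Real.pi / N * a := by
    push_cast
    ring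
  have h2 : (Real.pi / N * ((b - a : ℤ) : ℝ)) = Real.pi / N * b - Real.pi / N * a := by
    push_cast
    ring
  rw [h1, h2, Real.sin_add, Real.sin_sub]
  ring

theorem cn_sub_cn (N : ℕ) (a b : ℤ) : cn N a - cn N (a + 2 * b) = 2 * sn N (a + b) * sn N b := by
  unfold sn cn
  have h0 : (Real.pi / N * (a : ℝ)) = Real.pi / N * ((a + b : ℤ) : ℝ) - Real.pi / N * b := by
    push_cast
    ring
  have h1 : (Real.pi / N * ((a + 2 * b : ℤ) : ℝ)) =
      Real.pi / N * ((a + b : ℤ) : ℝ) + Real.pi / N * b := by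
    push_cast
    ring
  rw [h0, h1, Real.cos_add, Real.cos_sub]
  ring

theorem sn_neg (N : ℕ) (a : ℤ) : sn N (-a) = -sn N a := by
  unfold sn
  push_cast
  rw [mul_neg, Real.sin_neg]

theorem cn_neg (N : ℕ) (a : ℤ) : cn N (-a) = cn N a := by
  unfold cn
  push_cast
  rw [mul_neg, Real.cos_neg]

theorem cn_abs (N : ℕ) (a : ℤ) : cn N |a| = cn N a := by
  rcases abs_choice a with h | h <;> rw [h]
  exact cn_neg N a

theorem cn_zero (N : ℕ) : cn N 0 = 1 := by simp [cn]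

theorem sn_zero (N : ℕ) : sn N 0 = 0 := by simp [sn]

theorem cn_le_one (N : ℕ) (a : ℤ) : |cn N a| ≤ 1 := Real.abs_cos_le_one _

theorem sn_le_one (N : ℕ) (a : ℤ) : |sn N a| ≤ 1 := Real.abs_sin_le_one _

theorem ang (N : ℕ) (hN : 0 < N) (s a : ℤ) :
    Real.pi / N * ((N * s + a : ℤ) : ℝ) = Real.pi / N * a + s * Real.pi := by
  have : (N : ℝ) ≠ 0 := by positivity
  push_cast
  field_simp
  ring

theorem sn_add_mul (N : ℕ) (hN : 0 < N) (s a : ℤ) : sn N (N * s + a) = (-1) ^ s * sn N a := by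
  unfold sn
  rw [ang N hN, Real.sin_add_int_mul_pi]

theorem cn_add_mul (N : ℕ) (hN : 0 < N) (s a : ℤ) : cn N (N * s + a) = (-1) ^ s * cn N a := by
  unfold cn
  rw [ang N hN, Real.cos_add_int_mul_pi]

theorem neg_one_sq (s : ℤ) : ((-1 : ℝ) ^ s) * (-1) ^ s = 1 := by
  rcases Int.even_or_odd s with h | h
  · rw [h.neg_one_zpow, mul_one]
  · rw [h.neg_one_zpow]
    norm_num

theorem neg_one_abs (s : ℤ) : |((-1 : ℝ) ^ s)| = 1 := by
  rcases Int.even_or_odd s with h | h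
  · rw [h.neg_one_zpow, abs_one]
  · rw [h.neg_one_zpow, abs_neg, abs_one]

theorem cn_period (N : ℕ) (hN : 0 < N) (L a : ℤ) (h : (N : ℤ) ∣ L) :
    cn N (2 * L + a) = cn N a := by
  obtain ⟨s, rfl⟩ := h
  rw [show 2 * ((N : ℤ) * s) + a = N * s + (N * s + a) by ring, cn_add_mul N hN,
    cn_add_mul N hN, ← mul_assoc, neg_one_sq, one_mul]

theorem sn_period (N : ℕ) (hN : 0 < N) (L a : ℤ) (h : (N : ℤ) ∣ L) :
    sn N (2 * L + a) = sn N a := by
  obtain ⟨s, rfl⟩ := h
  rw [show 2 * ((N : ℤ) * s) + a = N * s + (N * s + a) by ring, sn_add_mul N hN,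
    sn_add_mul N hN, ← mul_assoc, neg_one_sq, one_mul]

theorem sn_pos (N : ℕ) (a : ℤ) (h0 : 0 < a) (h1 : a < N) : 0 < sn N a := by
  have hN : (0 : ℝ) < N := by
    have : (0 : ℤ) < N := h0.trans h1
    exact_mod_cast this
  have h0' : (0 : ℝ) < a := by exact_mod_cast h0
  have h1' : (a : ℝ) < N := by exact_mod_cast h1
  apply Real.sin_pos_of_pos_of_lt_pi
  · have := Real.pi_pos
    positivity
  · rw [div_mul_eq_mul_div, div_lt_iff₀ hN]
    exact mul_lt_mul_of_pos_left h1' Real.pi_pos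

theorem sn_nonneg (N : ℕ) (a : ℤ) (h0 : 0 ≤ a) (h1 : a ≤ N) : 0 ≤ sn N a := by
  have h0' : (0 : ℝ) ≤ a := by exact_mod_cast h0
  have h1' : (a : ℝ) ≤ N := by exact_mod_cast h1
  apply Real.sin_nonneg_of_nonneg_of_le_pi
  · have := Real.pi_pos
    positivity
  · rcases Nat.eq_zero_or_pos N with h | h
    · subst h
      simp [Real.pi_pos.le]
    · have hN : (0 : ℝ) < N := by exact_mod_cast h
      rw [div_mul_eq_mul_div, div_le_iff₀ hN]
      exact mul_le_mul_of_nonneg_left h1' Real.pi_pos.le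

theorem cn_pos (N : ℕ) (a : ℤ) (h : 2 * |a| < N) : 0 < cn N a := by
  rw [← cn_abs]
  have hN : (0 : ℝ) < N := by
    have : (0 : ℤ) < N := lt_of_le_of_lt (by positivity) h
    exact_mod_cast this
  have h' : 2 * ((|a| : ℤ) : ℝ) < N := by exact_mod_cast h
  have h0 : (0 : ℝ) ≤ ((|a| : ℤ) : ℝ) := by exact_mod_cast abs_nonneg a
  apply Real.cos_pos_of_mem_Ioo
  constructor
  · have h1 : 0 ≤ Real.pi / N * ((|a| : ℤ) : ℝ) := by
      have := Real.pi_pos
      positivity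
    linarith [Real.pi_pos]
  · rw [div_mul_eq_mul_div, div_lt_iff₀ hN]
    nlinarith [Real.pi_pos]

theorem cn_anti (N : ℕ) (a b : ℤ) (h0 : 0 ≤ a) (h1 : a ≤ b) (h2 : b ≤ N) : cn N b ≤ cn N a := by
  rcases Nat.eq_zero_or_pos N with h | h
  · subst h
    simp [cn]
  have hN : (0 : ℝ) < N := by exact_mod_cast h
  have h0' : (0 : ℝ) ≤ a := by exact_mod_cast h0
  have h1' : (a : ℝ) ≤ b := by exact_mod_cast h1
  have h2' : (b : ℝ) ≤ N := by exact_mod_cast h2
  apply Real.cos_le_cos_of_nonneg_of_le_pi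
  · have := Real.pi_pos
    positivity
  · rw [div_mul_eq_mul_div, div_le_iff₀ hN]
    exact mul_le_mul_of_nonneg_left h2' Real.pi_pos.le
  · apply mul_le_mul_of_nonneg_left h1'
    have := Real.pi_pos
    positivity

theorem sn_strict (N : ℕ) (a b : ℤ) (h0 : 0 ≤ a) (h1 : a < b) (h2 : 2 * b ≤ N) :
    sn N a < sn N b := by
  have hN : (0 : ℝ) < N := by
    have : (0 : ℤ) < N := by linarith
    exact_mod_cast this
  have h0' : (0 : ℝ) ≤ a := by exact_mod_cast h0
  have h1' : (a : ℝ) < b := by exact_mod_cast h1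
  have h2' : 2 * (b : ℝ) ≤ N := by exact_mod_cast h2
  apply Real.sin_lt_sin_of_lt_of_le_pi_div_two
  · have h3 : 0 ≤ Real.pi / N * (a : ℝ) := by
      have := Real.pi_pos
      positivity
    linarith [Real.pi_pos]
  · rw [div_mul_eq_mul_div, div_le_iff₀ hN]
    nlinarith [Real.pi_pos]
  · apply mul_lt_mul_of_pos_left h1'
    have := Real.pi_pos
    positivity

/-- reduction to the smallest residue in absolute value -/
theorem red (N : ℕ) (hN : 0 < N) (n : ℤ) :
    ∃ r : ℤ, (N : ℤ) ∣ n - r ∧ 2 * |r| ≤ N ∧ |sn N n| = sn N |r| ∧ |cn N n| = cn N |r| := by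
  have h0 : (0 : ℤ) < N := by exact_mod_cast hN
  obtain ⟨r, s, hn, hr⟩ : ∃ r s : ℤ, n = N * s + r ∧ 2 * |r| ≤ N := by
    have h1 := Int.emod_nonneg n (ne_of_gt h0)
    have h2 := Int.emod_lt_of_pos n h0
    have h3 := Int.emod_add_mul_ediv n N
    by_cases h : 2 * (n % N) ≤ N
    · refine ⟨n % N, n / N, by linarith, ?_⟩
      rw [abs_of_nonneg h1]
      exact h
    · refine ⟨n % N - N, n / N + 1, by linarith, ?_⟩
      rw [abs_of_neg (by linarith)]
      linarith
  refine ⟨r, ⟨s, by rw [hn]; ring⟩, hr, ?_, ?_⟩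
  · rw [hn, sn_add_mul N hN, abs_mul, neg_one_abs, one_mul]
    rcases abs_choice r with h | h
    · rw [h]
      apply abs_of_nonneg
      have h1 : 0 ≤ r := by
        rw [← h]
        exact abs_nonneg r
      apply sn_nonneg N r h1
      rw [h] at hr
      linarith
    · rw [h, sn_neg]
      apply abs_of_nonpos
      have h1 : 0 ≤ -r := by
        rw [← h]
        exact abs_nonneg r
      have h2 := sn_nonneg N (-r) h1 (by rw [h] at hr; linarith)
      rw [sn_neg] at h2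
      linarith
  · rw [hn, cn_add_mul N hN, abs_mul, neg_one_abs, one_mul, ← cn_abs]
    apply abs_of_nonneg
    have h1 : 0 ≤ |r| := abs_nonneg r
    have h0' : (0 : ℝ) ≤ ((|r| : ℤ) : ℝ) := by exact_mod_cast h1
    have hr' : 2 * ((|r| : ℤ) : ℝ) ≤ N := by exact_mod_cast hr
    have hN' : (0 : ℝ) < N := by exact_mod_cast hN
    apply Real.cos_nonneg_of_neg_pi_div_two_le_of_le
    · have h3 : 0 ≤ Real.pi / N * ((|r| : ℤ) : ℝ) := by
        have := Real.pi_pos
        positivity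
      linarith [Real.pi_pos]
    · rw [div_mul_eq_mul_div, div_le_iff₀ hN']
      nlinarith [Real.pi_pos]

/-- a nonzero multiple of `T` is at least `T` in absolute value -/
theorem le_abs_dvd (T : ℕ) (L : ℤ) (h : (T : ℤ) ∣ L) (h0 : L ≠ 0) : (T : ℤ) ≤ |L| :=
  Int.le_of_dvd (abs_pos.2 h0) ((dvd_abs _ _).2 h)

theorem cn_le (N T : ℕ) (hN : 0 < N) (hTN : (T : ℤ) ∣ N) (L d : ℤ) (hL : (T : ℤ) ∣ L)
    (hd : 2 * |d| ≤ T) : |cn N (L + d)| ≤ cn N d := by
  obtain ⟨r, hr, hr2, -, hc⟩ := red N hN (L + d)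
  rw [hc, ← cn_abs N d]
  have h1 : (T : ℤ) ∣ r - d := by
    have h2 : (T : ℤ) ∣ L + d - r := hTN.trans hr
    have h3 : r - d = L - (L + d - r) := by ring
    rw [h3]
    exact dvd_sub hL h2
  refine cn_anti N _ _ (abs_nonneg d) ?_ ?_
  · by_cases h : r - d = 0
    · rw [sub_eq_zero.1 h]
    · have h2 := le_abs_dvd T _ h1 h
      have h3 : |r - d| ≤ |r| + |d| := abs_sub _ _
      linarith
  · linarith [abs_nonneg r]

/-- `sin θ ∑ cos (θ (2 e + 1 - n)) = sin (θ n)` -/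
theorem sum_cn (N n : ℕ) : 2 * sn N 1 * ∑ e ∈ range n, cn N (2 * e + 1 - n) = 2 * sn N n := by
  have h : ∀ (φ : ℤ) (m : ℕ), 2 * sn N 1 * ∑ e ∈ range m, cn N (2 * e + 1 + φ) =
      sn N (2 * m + φ) - sn N φ := by
    intro φ m
    induction m with
    | zero => simp
    | succ m ih =>
      rw [sum_range_succ, mul_add, ih, two_sn_cn]
      have e1 : (1 : ℤ) + (2 * m + 1 + φ) = 2 * ((m + 1 : ℕ) : ℤ) + φ := by
        push_cast
        ring
      have e2 : (2 * m + 1 + φ : ℤ) - 1 = 2 * m + φ := by ring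
      rw [e1, e2]
      ring
  have h1 := h (-n) n
  rw [sn_neg] at h1
  have e3 : (2 * n + -n : ℤ) = n := by ring
  rw [e3] at h1
  have e4 : ∀ e : ℕ, (2 * e + 1 - n : ℤ) = 2 * e + 1 + -n := fun e => by ring
  simp only [e4]
  rw [h1]
  ring

theorem wsum (α : ℕ → ℕ) (hα : ∀ j, α j ≤ 1) (f : ℕ → ℝ) (n : ℕ) :
    ∑ j ∈ range n, (α j : ℝ) * f (pS α j) = ∑ e ∈ range (pS α n), f e := by
  induction n with
  | zero => simp [pS_zero]
  | succ n ih =>
    rw [sum_range_succ, ih, pS_succ]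
    have h := hα n
    interval_cases h1 : α n
    · simp
    · rw [sum_range_succ]
      simp

/-- the sum with a phase -/
noncomputable def cS (N : ℕ) (K : ℤ) (α : ℕ → ℕ) (w : ℕ) (φ : ℤ) : ℝ :=
  ∑ i ∈ range w, cn N (2 * (K * i + pS α i) + φ)

theorem e1 (N : ℕ) (K : ℤ) (α : ℕ → ℕ) (hα : ∀ j, α j ≤ 1) (φ : ℤ) (n : ℕ) :
    2 * sn N K * cS N K α (n + 1) φ = sn N (K * (2 * n + 1) + 2 * pS α n + φ) - sn N (-K + φ) -
      2 * sn N 1 * ∑ j ∈ range n, (α j : ℝ) * cn N (K * (2 * j + 1) + 2 * pS α j + 1 + φ) := by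
  induction n with
  | zero =>
    unfold cS
    rw [zero_add, sum_range_one, two_sn_cn, sum_range_zero, mul_zero, sub_zero]
    congr 2
    · simp [pS_zero]
    · simp [pS_zero]
      ring
  | succ n ih =>
    have h0 : cS N K α (n + 1 + 1) φ = cS N K α (n + 1) φ +
        cn N (2 * (K * (n + 1 : ℕ) + pS α (n + 1)) + φ) := by
      unfold cS
      rw [sum_range_succ]
    have h8 := two_sn_cn N K (2 * (K * ((n + 1 : ℕ) : ℤ) + pS α (n + 1)) + φ)
    have h1 : K + (2 * (K * ((n + 1 : ℕ) : ℤ) + pS α (n + 1)) + φ) =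
        K * (2 * ((n + 1 : ℕ) : ℤ) + 1) + 2 * pS α (n + 1) + φ := by
      ring
    have h2 : 2 * (K * ((n + 1 : ℕ) : ℤ) + pS α (n + 1)) + φ - K =
        K * (2 * n + 1) + 2 * pS α (n + 1) + φ := by
      push_cast
      ring
    rw [h1, h2] at h8
    have h3 : sn N (K * (2 * n + 1) + 2 * pS α n + φ) -
        sn N (K * (2 * n + 1) + 2 * pS α (n + 1) + φ) =
        -(2 * sn N 1 * ((α n : ℝ) * cn N (K * (2 * n + 1) + 2 * pS α n + 1 + φ))) := by
      rw [pS_succ]
      have h := hα n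
      interval_cases h4 : α n
      · simp
      · have h5 := two_sn_cn N 1 (K * (2 * n + 1) + 2 * pS α n + 1 + φ)
        have h6 : (1 : ℤ) + (K * (2 * n + 1) + 2 * pS α n + 1 + φ) =
            K * (2 * n + 1) + 2 * ((pS α n + 1 : ℕ) : ℤ) + φ := by
          push_cast
          ring
        have h7 : (K * (2 * n + 1) + 2 * pS α n + 1 + φ : ℤ) - 1 =
            K * (2 * n + 1) + 2 * pS α n + φ := by ring
        rw [h6, h7] at h5
        push_cast at h5 ⊢
        linarith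
    rw [h0, sum_range_succ]
    linear_combination ih + h8 + h3

/-- the case of a multiple of `N` -/
theorem centered (N T : ℕ) (hTN : (T : ℤ) ∣ N) (K : ℤ) (hK : (T : ℤ) ∣ K) (α : ℕ → ℕ)
    (hα : ∀ j, α j ≤ 1) (n : ℕ) (hn : pS α n ≤ T) (hN : 0 < N) (h1 : ¬ (N : ℤ) ∣ K)
    (h2 : (N : ℤ) ∣ K * (n + 1)) (hQ : cS N K α (n + 1) (K - pS α n) = 0) :
    ∀ j < n, α j = 1 → (N : ℤ) ∣ K * (j + 1) := by
  have hN2 : 2 ≤ N := by
    by_contra h
    have h3 : N = 1 := by omega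
    subst h3
    exact h1 (one_dvd _)
  have hs1 : 0 < sn N 1 := sn_pos N 1 (by norm_num) (by exact_mod_cast hN2)
  have e := e1 N K α hα (K - pS α n) n
  rw [hQ, mul_zero] at e
  have a1 : K * (2 * n + 1) + 2 * pS α n + (K - pS α n) = 2 * (K * (n + 1)) + pS α n := by ring
  have a2 : -K + (K - pS α n) = -(pS α n : ℤ) := by ring
  rw [a1, a2, sn_period N hN _ _ h2, sn_neg] at e
  have hc := sum_cn N (pS α n)
  rw [← wsum α hα (fun e => cn N (2 * e + 1 - pS α n)) n] at hc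
  have hz : ∑ j ∈ range n, (α j : ℝ) * (cn N (2 * pS α j + 1 - pS α n) -
      cn N (K * (2 * j + 1) + 2 * pS α j + 1 + (K - pS α n))) = 0 := by
    have h3 : 2 * sn N 1 * ∑ j ∈ range n, (α j : ℝ) * (cn N (2 * pS α j + 1 - pS α n) -
      cn N (K * (2 * j + 1) + 2 * pS α j + 1 + (K - pS α n))) = 0 := by
      simp only [mul_sub, sum_sub_distrib] at hc e ⊢
      linarith
    rcases mul_eq_zero.1 h3 with h4 | h4
    · linarith
    · exact h4
  have key : ∀ j < n, α j = 1 → cn N (2 * pS α j + 1 - pS α n) -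
      cn N (K * (2 * j + 1) + 2 * pS α j + 1 + (K - pS α n)) =
      2 * sn N (2 * pS α j + 1 - pS α n + (K * (j + 1)) % N) * sn N ((K * (j + 1)) % N) := by
    intro j _ _
    have b1 : K * (2 * j + 1) + 2 * pS α j + 1 + (K - pS α n) =
        (2 * pS α j + 1 - pS α n) + 2 * (K * (j + 1)) := by ring
    rw [b1, cn_sub_cn]
    have b2 := Int.emod_add_mul_ediv (K * (j + 1)) N
    have b3 : K * (j + 1) = N * (K * (j + 1) / N) + K * (j + 1) % N := by linarith
    have b4 : (2 * pS α j + 1 - pS α n : ℤ) + K * (j + 1) =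
        N * (K * (j + 1) / N) + (2 * pS α j + 1 - pS α n + K * (j + 1) % N) := by linarith
    have c1 : sn N (2 * pS α j + 1 - pS α n + K * (j + 1)) =
        (-1) ^ (K * (j + 1) / N) * sn N (2 * pS α j + 1 - pS α n + K * (j + 1) % N) := by
      rw [b4, sn_add_mul N hN]
    have c2 : sn N (K * (j + 1)) = (-1) ^ (K * (j + 1) / N) * sn N (K * (j + 1) % N) := by
      conv_lhs => rw [b3]
      rw [sn_add_mul N hN]
    rw [c1, c2]
    linear_combination (2 * sn N (2 * pS α j + 1 - pS α n + K * (j + 1) % N) *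
      sn N (K * (j + 1) % N)) * neg_one_sq (K * (j + 1) / N)
  have hle : ∀ j < n, α j = 1 → (pS α j : ℤ) + 1 ≤ pS α n := by
    intro j hj h3
    have h4 : pS α (j + 1) ≤ pS α n := pS_mono α hj
    rw [pS_succ, h3] at h4
    exact_mod_cast h4
  have hN0 : (0 : ℤ) < N := by exact_mod_cast hN
  have key2 : ∀ j < n, α j = 1 → ¬ (N : ℤ) ∣ K * (j + 1) →
      0 < 2 * sn N (2 * pS α j + 1 - pS α n + (K * (j + 1)) % N) * sn N ((K * (j + 1)) % N) := by
    intro j hj h3 h4
    have h5 := hle j hj h3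
    have h6 := Int.emod_nonneg (K * (j + 1)) (ne_of_gt hN0)
    have h7 := Int.emod_lt_of_pos (K * (j + 1)) hN0
    have h8 : K * (j + 1) % N ≠ 0 := fun h => h4 (Int.dvd_of_emod_eq_zero h)
    have h9 : (T : ℤ) ∣ K * (j + 1) % N := by
      rw [Int.emod_def]
      exact dvd_sub (dvd_mul_of_dvd_left hK _) (dvd_mul_of_dvd_left hTN _)
    have h10 : (T : ℤ) ≤ K * (j + 1) % N := by
      have := le_abs_dvd T _ h9 h8
      rwa [abs_of_nonneg h6] at this
    have h11 : (T : ℤ) ≤ N - K * (j + 1) % N := by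
      have h12 := le_abs_dvd T (N - K * (j + 1) % N) (dvd_sub hTN h9) (by omega)
      rwa [abs_of_nonneg (by omega)] at h12
    have h13 : (pS α n : ℤ) ≤ T := by exact_mod_cast hn
    have h14 : (0 : ℤ) ≤ pS α j := by positivity
    have p1 : 0 < sn N (2 * pS α j + 1 - pS α n + (K * (j + 1)) % N) :=
      sn_pos N _ (by omega) (by omega)
    have p2 : 0 < sn N ((K * (j + 1)) % N) := sn_pos N _ (by omega) (by omega)
    positivity
  intro j hj h3
  by_contra h4
  have hnn : ∀ i ∈ range n, 0 ≤ (α i : ℝ) * (cn N (2 * pS α i + 1 - pS α n) -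
      cn N (K * (2 * i + 1) + 2 * pS α i + 1 + (K - pS α n))) := by
    intro i hi
    have h := hα i
    have hi' := mem_range.1 hi
    interval_cases h5 : α i
    · simp
    · rw [key i hi' h5]
      by_cases h6 : (N : ℤ) ∣ K * (i + 1)
      · rw [Int.emod_eq_zero_of_dvd h6, sn_zero, mul_zero, mul_zero]
      · have := key2 i hi' h5 h6
        push_cast
        linarith
  have h5 := (sum_eq_zero_iff_of_nonneg hnn).1 hz j (mem_range.2 hj)
  have h6 := key2 j hj h3 h4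
  rw [key j hj h3, h3] at h5
  push_cast at h5
  linarith

end Pool.Agent.Helper62.OB
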