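import Mathlib
import Pool.Agent.Helper62.OB.Trig

/-!
# Trigonometric sums: few rests
-/

set_option autoImplicit false

namespace Pool.Agent.Helper62.OB

open Finset

theorem sin_ineq (z : ℝ) (h0 : 0 < z) (h1 : z ≤ Real.pi / 2) :
    z ≤ Real.sin z * (1 + Real.sin z) := by
  rcases le_or_gt z 1 with h | h
  · have h2 : z - z ^ 3 / 4 < Real.sin z := by
      have h2 := Real.sin_gt_sub_cube h0
      have : 0 < z ^ 3 := by positivity
      linarith
    have h3 : 0 < z - z ^ 3 / 4 := by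
      have : z ^ 3 ≤ z := by
        have := pow_le_pow_of_le_one h0.le h (show 1 ≤ 3 by norm_num)
        simpa using this
      linarith
    have h4 : (z - z ^ 3 / 4) * (1 + (z - z ^ 3 / 4)) ≤ Real.sin z * (1 + Real.sin z) := by
      apply mul_le_mul h2.le _ (by linarith) (by linarith)
      linarith
    have h5 : z ≤ (z - z ^ 3 / 4) * (1 + (z - z ^ 3 / 4)) := by
      have h6 : (z - z ^ 3 / 4) * (1 + (z - z ^ 3 / 4)) - z =
          z ^ 2 * ((1 - z ^ 2 / 4) ^ 2 - z / 4) := by ring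
      have h7 : z ^ 2 ≤ 1 := by nlinarith
      have h8 : 9 / 16 ≤ (1 - z ^ 2 / 4) ^ 2 := by nlinarith
      have h9 : 0 ≤ z ^ 2 * ((1 - z ^ 2 / 4) ^ 2 - z / 4) := by
        apply mul_nonneg (by positivity)
        linarith
      linarith
    linarith
  · have h2 := Real.mul_le_sin h0.le h1
    have hp := Real.pi_pos
    have h3 : 0 < 2 / Real.pi * z := by positivity
    have h4 : (2 / Real.pi * z) * (1 + 2 / Real.pi * z) ≤ Real.sin z * (1 + Real.sin z) := by
      apply mul_le_mul h2 _ (by linarith) (by linarith)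
      linarith
    have h5 : 1 ≤ 2 / Real.pi * (1 + 2 / Real.pi * z) := by
      have h6 : 2 / Real.pi ≤ 2 / Real.pi * z := by
        have : 0 < 2 / Real.pi := by positivity
        nlinarith
      have h7 : 1 ≤ 2 / Real.pi * (1 + 2 / Real.pi) := by
        have h8 : 2 / Real.pi * (1 + 2 / Real.pi) = (2 * Real.pi + 4) / Real.pi ^ 2 := by
          field_simp
          ring
        rw [h8, le_div_iff₀ (by positivity)]
        nlinarith [Real.pi_lt_d2, Real.pi_gt_three]
      have h9 : 0 < 2 / Real.pi := by positivity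
      nlinarith
    have h10 : z ≤ (2 / Real.pi * z) * (1 + 2 / Real.pi * z) := by
      have : (2 / Real.pi * z) * (1 + 2 / Real.pi * z) =
          z * (2 / Real.pi * (1 + 2 / Real.pi * z)) := by ring
      rw [this]
      nlinarith
    linarith

theorem sn_concave (N : ℕ) (c T : ℕ) (hc : 1 ≤ c) (hcT : c ≤ T) (hT : 2 * T ≤ N) :
    c * sn N 1 < sn N c * (1 + sn N T) := by
  have hN : (0 : ℝ) < N := by
    have : 0 < N := by omega
    exact_mod_cast this
  have hTr : (0 : ℝ) < T := by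
    have : 0 < T := by omega
    exact_mod_cast this
  have hcr : (0 : ℝ) < c := by exact_mod_cast hc
  have hp := Real.pi_pos
  unfold sn
  push_cast
  set x := Real.pi / N with hx
  have hx0 : 0 < x := by positivity
  have hz1 : x * T ≤ Real.pi / 2 := by
    rw [hx, div_mul_eq_mul_div, div_le_iff₀ hN]
    have : (2 * T : ℝ) ≤ N := by exact_mod_cast hT
    nlinarith
  have hz0 : 0 < x * T := by positivity
  have h1 := sin_ineq (x * T) hz0 hz1
  have hs0 : 0 < Real.sin (x * T) := Real.sin_pos_of_pos_of_lt_pi hz0 (by linarith)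
  have h2 : (c : ℝ) / T * Real.sin (x * T) ≤ Real.sin (x * c) := by
    have ha : 0 ≤ 1 - (c : ℝ) / T := by
      rw [sub_nonneg, div_le_one hTr]
      exact_mod_cast hcT
    have hb : 0 ≤ (c : ℝ) / T := by positivity
    have h3 := strictConcaveOn_sin_Icc.concaveOn.2
      (⟨le_rfl, hp.le⟩ : (0 : ℝ) ∈ Set.Icc 0 Real.pi)
      (⟨hz0.le, by linarith⟩ : x * T ∈ Set.Icc 0 Real.pi) ha hb (by ring)
    simp only [smul_eq_mul, Real.sin_zero, mul_zero, zero_add] at h3
    have h4 : (c : ℝ) / T * (x * T) = x * c := by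
      field_simp
    rw [h4] at h3
    exact h3
  have h5 : Real.sin (x * 1) < x := by
    rw [mul_one]
    exact Real.sin_lt hx0
  have h6 : (c : ℝ) * x ≤ (c : ℝ) / T * Real.sin (x * T) * (1 + Real.sin (x * T)) := by
    have h7 : (c : ℝ) * x = (c : ℝ) / T * (x * T) := by
      field_simp
    rw [h7, mul_assoc]
    exact mul_le_mul_of_nonneg_left h1 (by positivity)
  have h8 : (c : ℝ) / T * Real.sin (x * T) * (1 + Real.sin (x * T)) ≤
      Real.sin (x * c) * (1 + Real.sin (x * T)) :=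
    mul_le_mul_of_nonneg_right h2 (by linarith)
  have h9 : (c : ℝ) * Real.sin (x * 1) < c * x := mul_lt_mul_of_pos_left h5 hcr
  linarith

theorem e2 (N : ℕ) (K : ℤ) (α : ℕ → ℕ) (hα : ∀ j, α j ≤ 1) (φ : ℤ) (n : ℕ) :
    2 * sn N (K + 1) * cS N K α (n + 1) φ =
      sn N (K * (2 * n + 1) + 1 + 2 * pS α n + φ) - sn N (-K - 1 + φ) +
      2 * sn N 1 * ∑ j ∈ range n, (1 - (α j : ℝ)) * cn N (K * (2 * j + 1) + 2 * pS α j + φ) := by
  induction n with
  | zero =>
    unfold cS
    rw [zero_add, sum_range_one, two_sn_cn, sum_range_zero, mul_zero, add_zero]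
    congr 2
    · simp [pS_zero]
    · simp [pS_zero]
      ring
  | succ n ih =>
    have h0 : cS N K α (n + 1 + 1) φ = cS N K α (n + 1) φ +
        cn N (2 * (K * (n + 1 : ℕ) + pS α (n + 1)) + φ) := by
      unfold cS
      rw [sum_range_succ]
    have h8 := two_sn_cn N (K + 1) (2 * (K * ((n + 1 : ℕ) : ℤ) + pS α (n + 1)) + φ)
    have h1 : K + 1 + (2 * (K * ((n + 1 : ℕ) : ℤ) + pS α (n + 1)) + φ) =
        K * (2 * ((n + 1 : ℕ) : ℤ) + 1) + 1 + 2 * pS α (n + 1) + φ := by
      ring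
    have h2 : 2 * (K * ((n + 1 : ℕ) : ℤ) + pS α (n + 1)) + φ - (K + 1) =
        K * (2 * n + 1) - 1 + 2 * pS α (n + 1) + φ := by
      push_cast
      ring
    rw [h1, h2] at h8
    have h3 : sn N (K * (2 * n + 1) + 1 + 2 * pS α n + φ) -
        sn N (K * (2 * n + 1) - 1 + 2 * pS α (n + 1) + φ) =
        2 * sn N 1 * ((1 - (α n : ℝ)) * cn N (K * (2 * n + 1) + 2 * pS α n + φ)) := by
      rw [pS_succ]
      have h := hα n
      interval_cases h4 : α n
      · have h5 := two_sn_cn N 1 (K * (2 * n + 1) + 2 * pS α n + φ)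
        have h6 : (1 : ℤ) + (K * (2 * n + 1) + 2 * pS α n + φ) =
            K * (2 * n + 1) + 1 + 2 * pS α n + φ := by ring
        have h7 : (K * (2 * n + 1) + 2 * pS α n + φ : ℤ) - 1 =
            K * (2 * n + 1) - 1 + 2 * ((pS α n + 0 : ℕ) : ℤ) + φ := by
          push_cast
          ring
        rw [h6, h7] at h5
        push_cast at h5 ⊢
        linarith
      · have h6 : K * (2 * n + 1) + 1 + 2 * pS α n + φ =
            K * (2 * n + 1) - 1 + 2 * ((pS α n + 1 : ℕ) : ℤ) + φ := by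
          push_cast
          ring
        rw [h6]
        push_cast
        ring
    rw [h0, sum_range_succ]
    linear_combination ih + h8 + h3

/-- the first places of the runs of zeros -/
def st (α : ℕ → ℕ) (n : ℕ) : ℕ :=
  ((range n).filter fun j => α j = 0 ∧ (j = 0 ∨ α (j - 1) = 1)).card

theorem st_succ (α : ℕ → ℕ) (n : ℕ) :
    st α (n + 1) = st α n + if α n = 0 ∧ (n = 0 ∨ α (n - 1) = 1) then 1 else 0 := by
  unfold st
  rw [range_add_one, filter_insert]
  split_ifs with h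
  · rw [card_insert_of_notMem (by simp)]
  · rfl

theorem run_bound (N : ℕ) (K : ℤ) (α : ℕ → ℕ) (hα : ∀ j, α j ≤ 1) (ψ : ℤ) (m : ℕ) :
    |∑ j ∈ range m, (1 - (α j : ℝ)) * (sn N (K * (2 * j + 2) + 2 * pS α j + ψ) -
        sn N (K * (2 * j) + 2 * pS α j + ψ)) -
      (if 0 < m ∧ α (m - 1) = 0 then sn N (K * (2 * m) + 2 * pS α m + ψ) else 0)| ≤
      2 * st α m - (if 0 < m ∧ α (m - 1) = 0 then 1 else 0) := by
  induction m with
  | zero => simp [st]
  | succ m ih =>
    rw [sum_range_succ, st_succ, Nat.add_sub_cancel]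
    have h := hα m
    have h1 := sn_le_one N (K * (2 * m) + 2 * pS α m + ψ)
    rcases Nat.lt_or_ge 0 (α m) with h0 | h0
    · -- a one
      have h2 : α m = 1 := by omega
      rw [if_neg (show ¬ (α m = 0 ∧ (m = 0 ∨ α (m - 1) = 1)) by omega),
        if_neg (show ¬ (0 < m + 1 ∧ α m = 0) by omega),
        if_neg (show ¬ (0 < m + 1 ∧ α m = 0) by omega), h2]
      push_cast
      rw [sub_self, zero_mul, add_zero, sub_zero, sub_zero, add_zero]
      split_ifs at ih with h3
      · have h4 := abs_add_le (∑ j ∈ range m, (1 - (α j : ℝ)) *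
          (sn N (K * (2 * j + 2) + 2 * pS α j + ψ) - sn N (K * (2 * j) + 2 * pS α j + ψ)) -
          sn N (K * (2 * m) + 2 * pS α m + ψ)) (sn N (K * (2 * m) + 2 * pS α m + ψ))
        rw [sub_add_cancel] at h4
        linarith
      · rw [sub_zero, sub_zero] at ih
        exact ih
    · -- a zero
      have h2 : α m = 0 := by omega
      have h5 : pS α (m + 1) = pS α m := by rw [pS_succ, h2, add_zero]
      rw [if_pos (show 0 < m + 1 ∧ α m = 0 from ⟨Nat.succ_pos m, h2⟩),
        if_pos (show 0 < m + 1 ∧ α m = 0 from ⟨Nat.succ_pos m, h2⟩), h2, h5]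
      have h6 : K * (2 * ((m + 1 : ℕ) : ℤ)) + 2 * pS α m + ψ =
          K * (2 * m + 2) + 2 * pS α m + ψ := by
        push_cast
        ring
      rw [h6]
      have h7 : ∀ A B C : ℝ, A + (1 - ((0 : ℕ) : ℝ)) * (B - C) - B = A - C := by
        intro A B C
        push_cast
        ring
      rw [h7]
      by_cases h3 : 0 < m ∧ α (m - 1) = 0
      · rw [if_pos h3, if_pos h3] at ih
        rw [if_neg (show ¬ (0 = 0 ∧ (m = 0 ∨ α (m - 1) = 1)) by omega), Nat.add_zero]
        exact ih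
      · rw [if_neg h3, if_neg h3, sub_zero, sub_zero] at ih
        have h8 := hα (m - 1)
        rw [if_pos (show (0 = 0 ∧ (m = 0 ∨ α (m - 1) = 1)) by omega)]
        push_cast
        have h9 := abs_sub (∑ j ∈ range m, (1 - (α j : ℝ)) *
          (sn N (K * (2 * j + 2) + 2 * pS α j + ψ) - sn N (K * (2 * j) + 2 * pS α j + ψ)))
          (sn N (K * (2 * m) + 2 * pS α m + ψ))
        linarith

/-- the case of the trivial root of unity -/
theorem y1_one (N : ℕ) (hN : 0 < N) (K : ℤ) (hK : (N : ℤ) ∣ K) (α : ℕ → ℕ)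
    (hα : ∀ j, α j ≤ 1) (n : ℕ) (hn : pS α n ≤ n) (hT : n + 2 ≤ N)
    (hQ : cS N K α (n + 1) (-(pS α n : ℤ)) = 0) : False := by
  have hs1 : 0 < sn N 1 := sn_pos N 1 (by norm_num) (by omega)
  set f : ℕ → ℝ := fun e => cn N (2 * e - pS α n) with hf
  have h1 : cS N K α (n + 1) (-(pS α n : ℤ)) = ∑ i ∈ range (n + 1), f (pS α i) := by
    unfold cS
    apply sum_congr rfl
    intro i _
    have h3 : 2 * (K * i + pS α i) + -(pS α n : ℤ) = 2 * (K * i) + (2 * pS α i - pS α n) := by
      ring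
    rw [h3, cn_period N hN _ _ (dvd_mul_of_dvd_left hK _)]
  have h2 : ∑ i ∈ range (n + 1), f (pS α i) =
      ∑ e ∈ range (pS α n + 1), f e + ∑ j ∈ range n, (1 - (α j : ℝ)) * f (pS α j) := by
    rw [sum_range_succ, sum_range_succ, ← wsum α hα f n]
    simp only [sub_mul, one_mul, sum_sub_distrib]
    ring
  have h3 : ∀ j ≤ n, cn N (pS α n) ≤ f (pS α j) := by
    intro j hj
    have h4 : (pS α j : ℤ) ≤ pS α n := by exact_mod_cast pS_mono α hj
    have h5 : (0 : ℤ) ≤ pS α j := by positivity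
    simp only [hf]
    rw [← cn_abs N (2 * pS α j - pS α n)]
    apply cn_anti N _ _ (abs_nonneg _)
    · exact abs_le.2 ⟨by linarith, by linarith⟩
    · have : pS α n ≤ N := by omega
      exact_mod_cast this
  have h4 : ((n - pS α n : ℕ) : ℝ) * cn N (pS α n) ≤
      ∑ j ∈ range n, (1 - (α j : ℝ)) * f (pS α j) := by
    have h5 : ((n - pS α n : ℕ) : ℝ) * cn N (pS α n) =
        ∑ j ∈ range n, (1 - (α j : ℝ)) * cn N (pS α n) := by
      rw [← sum_mul, sum_sub_distrib, Nat.cast_sub hn]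
      unfold pS
      push_cast
      simp
    rw [h5]
    apply sum_le_sum
    intro j hj
    apply mul_le_mul_of_nonneg_left (h3 j (mem_range.1 hj).le)
    have := hα j
    have h6 : (α j : ℝ) ≤ 1 := by exact_mod_cast this
    linarith
  have h5 : 2 * sn N 1 * ∑ e ∈ range (pS α n + 1), f e = 2 * sn N (pS α n + 1) := by
    have h6 := sum_cn N (pS α n + 1)
    push_cast at h6
    rw [← h6]
    congr 1
    apply sum_congr rfl
    intro e _
    simp only [hf]
    congr 1
    ring
  rw [h1, h2] at hQ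
  -- reflect
  set m : ℤ := N - (pS α n + 1) with hm
  have hr1 : sn N (pS α n + 1) = sn N m := by
    have := sn_add_mul N hN 1 (-m)
    rw [sn_neg] at this
    have h7 : (N : ℤ) * 1 + -m = pS α n + 1 := by
      rw [hm]
      ring
    rw [h7] at this
    rw [this]
    norm_num
  have hr2 : cn N (pS α n) = -cn N (m + 1) := by
    have := cn_add_mul N hN 1 (-(m + 1))
    rw [cn_neg] at this
    have h7 : (N : ℤ) * 1 + -(m + 1) = pS α n := by
      rw [hm]
      ring
    rw [h7] at this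
    rw [this]
    norm_num
  have hn' : (pS α n : ℤ) ≤ n := by exact_mod_cast hn
  have hT' : (n : ℤ) + 2 ≤ N := by exact_mod_cast hT
  have hp0 : (0 : ℤ) ≤ pS α n := by positivity
  have hm1 : ((n - pS α n : ℕ) : ℤ) + 1 ≤ m := by
    rw [Nat.cast_sub hn, hm]
    linarith
  have hm0 : (0 : ℤ) < m := lt_of_lt_of_le (by positivity) hm1
  have hsm : 0 < sn N m := sn_pos N m hm0 (by rw [hm]; linarith)
  -- conclusion
  have h8 : sn N m ≤ ((n - pS α n : ℕ) : ℝ) * (sn N 1 * cn N (m + 1)) := by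
    rw [hr1] at h5
    rw [hr2] at h4
    nlinarith
  rcases le_or_gt (cn N (m + 1)) 0 with h9 | h9
  · have : ((n - pS α n : ℕ) : ℝ) * (sn N 1 * cn N (m + 1)) ≤ 0 := by
      apply mul_nonpos_of_nonneg_of_nonpos (by positivity)
      exact mul_nonpos_of_nonneg_of_nonpos hs1.le h9
    linarith
  · -- `sn m ≥ m sn 1 cn (m + 1)`
    obtain ⟨k, hk⟩ : ∃ k : ℕ, m = k := ⟨m.toNat, (Int.toNat_of_nonneg hm0.le).symm⟩
    have h10 := sum_cn N k
    have h11 : (k : ℝ) * cn N (m + 1) ≤ ∑ e ∈ range k, cn N (2 * e + 1 - k) := by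
      have h12 : (k : ℝ) * cn N (m + 1) = ∑ e ∈ range k, cn N (m + 1) := by
        rw [sum_const, card_range, nsmul_eq_mul]
      rw [h12]
      apply sum_le_sum
      intro e he
      have h13 : (e : ℤ) < k := by exact_mod_cast mem_range.1 he
      have h14 : (0 : ℤ) ≤ e := by positivity
      rw [← cn_abs N (2 * e + 1 - k)]
      apply cn_anti N _ _ (abs_nonneg _)
      · rw [hk]
        exact abs_le.2 ⟨by linarith, by linarith⟩
      · rw [hm]
        linarith
    rw [hk] at h8 hm1 h9 hsm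
    rw [hk] at h11
    have h15 : ((n - pS α n : ℕ) : ℝ) + 1 ≤ k := by exact_mod_cast hm1
    have h16 : (k : ℝ) * (sn N 1 * cn N (k + 1)) ≤ sn N k := by nlinarith
    have h17 : 0 < sn N 1 * cn N (k + 1) := mul_pos hs1 h9
    nlinarith

/-- many steps are impossible when `ω^w = 1`, `ω ≠ 1` -/
theorem y1_div (N : ℕ) (K : ℤ) (α : ℕ → ℕ) (hα : ∀ j, α j ≤ 1) (n : ℕ) (h1 : ¬ (N : ℤ) ∣ K)
    (h2 : (N : ℤ) ∣ K * (n + 1)) (h : ∀ j < n, α j = 1 → (N : ℤ) ∣ K * (j + 1))
    (h0 : n ≤ 2 * pS α n) : False := by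
  rcases Nat.eq_zero_or_pos n with hn | hn
  · subst hn
    simp at h2
    exact h1 h2
  have hno : ∀ j, j + 1 < n → α j = 1 → α (j + 1) = 1 → False := by
    intro j hj h3 h4
    have h5 := h j (by omega) h3
    have h6 := h (j + 1) hj h4
    have h7 : K = K * (((j + 1 : ℕ) : ℤ) + 1) - K * (j + 1) := by
      push_cast
      ring
    exact h1 (h7 ▸ dvd_sub h6 h5)
  have key : ∀ j, j + 1 ≤ n → 2 * pS α (j + 1) + 1 ≤ (j + 1) + α j := by
    intro j
    induction j with
    | zero =>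
      intro _
      have h3 : α 0 = 0 := by
        have h4 := hα 0
        by_contra h5
        have h6 := h 0 hn (by omega)
        simp at h6
        exact h1 h6
      rw [pS_succ, pS_zero, h3]
    | succ j ih =>
      intro hj
      have h3 := ih (by omega)
      have h4 := hα (j + 1)
      have h5 := hα j
      rw [pS_succ]
      have h6 : ¬ (α j = 1 ∧ α (j + 1) = 1) := fun h7 => hno j (by omega) h7.1 h7.2
      omega
  obtain ⟨j, rfl⟩ : ∃ j, n = j + 1 := ⟨n - 1, by omega⟩
  have h3 := key j le_rfl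
  have h4 := hα j
  have h5 : α j = 0 := by
    by_contra h6
    have h7 := h j (by omega) (by omega)
    have h8 : K = K * (((j + 1 : ℕ) : ℤ) + 1) - K * (j + 1) := by
      push_cast
      ring
    exact h1 (h8 ▸ dvd_sub h2 h7)
  omega

theorem y1 (N T : ℕ) (hN : 0 < N) (hTN : (T : ℤ) ∣ N) (K : ℤ) (hK : (T : ℤ) ∣ K) (α : ℕ → ℕ)
    (hα : ∀ j, α j ≤ 1) (n ρ : ℕ) (h0 : n ≤ 2 * pS α n) (hρ : 1 ≤ ρ) (hruns : st α n ≤ ρ)
    (hT : n + 1 + ρ ≤ T) (hQ : ∀ φ : ℤ, cS N K α (n + 1) φ = 0) : False := by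
  have hN0 : (0 : ℤ) < N := by exact_mod_cast hN
  have hTN' : (T : ℤ) ≤ N := Int.le_of_dvd hN0 hTN
  have hTNn : T ≤ N := by exact_mod_cast hTN'
  have hpn : pS α n ≤ n := by
    have : pS α n ≤ ∑ j ∈ range n, 1 := sum_le_sum fun j _ => hα j
    simpa using this
  by_cases hA : (N : ℤ) ∣ K
  · exact y1_one N hN K hA α hα n hpn (by omega) (hQ _)
  by_cases hB : (N : ℤ) ∣ K * (n + 1)
  · exact y1_div N K α hα n hA hB
      (centered N T hTN K hK α hα n (by omega) hN hA hB (hQ _)) h0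
  have hs1 : 0 < sn N 1 := sn_pos N 1 (by norm_num) (by omega)
  have e := e2 N K α hα (-(K * n) - pS α n) n
  rw [hQ, mul_zero] at e
  have a1 : K * (2 * n + 1) + 1 + 2 * pS α n + (-(K * n) - pS α n) =
      K * (n + 1) + (pS α n + 1) := by ring
  have a2 : -K - 1 + (-(K * n) - pS α n) = -(K * (n + 1) + (pS α n + 1)) := by ring
  rw [a1, a2, sn_neg] at e
  set S := ∑ j ∈ range n, (1 - (α j : ℝ)) *
    cn N (K * (2 * j + 1) + 2 * pS α j + (-(K * n) - pS α n)) with hS
  have hcast : ((n - pS α n : ℕ) : ℝ) = ∑ j ∈ range n, (1 - (α j : ℝ)) := by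
    rw [sum_sub_distrib, Nat.cast_sub hpn]
    unfold pS
    push_cast
    simp
  -- first bound
  have b1 : |S| ≤ ((n - pS α n : ℕ) : ℝ) := by
    rw [hcast, hS]
    refine (abs_sum_le_sum_abs _ _).trans (sum_le_sum ?_)
    intro j _
    have h3 : (α j : ℝ) ≤ 1 := by exact_mod_cast hα j
    rw [abs_mul, abs_of_nonneg (by linarith)]
    have h4 := cn_le_one N (K * (2 * j + 1) + 2 * pS α j + (-(K * n) - pS α n))
    nlinarith
  -- second bound
  have b2 : |2 * sn N K * S| ≤ 2 * st α n := by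
    have h3 := run_bound N K α hα (-(K * n) - pS α n) n
    have h4 : 2 * sn N K * S = ∑ j ∈ range n, (1 - (α j : ℝ)) *
        (sn N (K * (2 * j + 2) + 2 * pS α j + (-(K * n) - pS α n)) -
        sn N (K * (2 * j) + 2 * pS α j + (-(K * n) - pS α n))) := by
      rw [hS, mul_sum]
      apply sum_congr rfl
      intro j _
      have h5 := two_sn_cn N K (K * (2 * j + 1) + 2 * pS α j + (-(K * n) - pS α n))
      have h6 : K + (K * (2 * j + 1) + 2 * pS α j + (-(K * n) - pS α n)) =
          K * (2 * j + 2) + 2 * pS α j + (-(K * n) - pS α n) := by ring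
      have h7 : (K * (2 * j + 1) + 2 * pS α j + (-(K * n) - pS α n)) - K =
          K * (2 * j) + 2 * pS α j + (-(K * n) - pS α n) := by ring
      rw [h6, h7] at h5
      linear_combination (1 - (α j : ℝ)) * h5
    rw [← h4] at h3
    have h8 := sn_le_one N (K * (2 * n) + 2 * pS α n + (-(K * n) - pS α n))
    split_ifs at h3 with h5
    · have h9 := abs_add_le (2 * sn N K * S -
        sn N (K * (2 * n) + 2 * pS α n + (-(K * n) - pS α n)))
        (sn N (K * (2 * n) + 2 * pS α n + (-(K * n) - pS α n)))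
      rw [sub_add_cancel] at h9
      linarith
    · rw [sub_zero, sub_zero] at h3
      exact h3
  have hst : (st α n : ℝ) ≤ ρ := by exact_mod_cast hruns
  -- lower bound for `sn K`
  obtain ⟨r, hr, hr2, hsr, -⟩ := red N hN K
  have hrT : (T : ℤ) ∣ r := by
    have h3 : r = K - (K - r) := by ring
    rw [h3]
    exact dvd_sub hK (hTN.trans hr)
  have hr0 : r ≠ 0 := by
    intro h3
    rw [h3, sub_zero] at hr
    exact hA hr
  have hTr := le_abs_dvd T r hrT hr0
  have hT0 : (0 : ℤ) < T := by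
    have : 0 < T := by omega
    exact_mod_cast this
  have hsT : sn N T ≤ |sn N K| := by
    rw [hsr]
    rcases hTr.lt_or_eq with h3 | h3
    · exact (sn_strict N T |r| hT0.le h3 hr2).le
    · rw [h3]
  have hTN2 : 2 * T ≤ N := by
    have : 2 * (T : ℤ) ≤ N := by linarith
    exact_mod_cast this
  have hsT0 : 0 < sn N T := sn_pos N T hT0 (by linarith)
  have b3 : sn N T * |S| ≤ ρ := by
    rw [abs_mul, abs_mul, abs_of_pos (by norm_num : (0 : ℝ) < 2)] at b2
    have h3 : sn N T * |S| ≤ |sn N K| * |S| := mul_le_mul_of_nonneg_right hsT (abs_nonneg S)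
    linarith
  -- lower bound for the left side
  obtain ⟨r', hr', hr2', hsr', -⟩ := red N hN (K * (n + 1) + (pS α n + 1))
  have h1 : (T : ℤ) ∣ r' - (pS α n + 1) := by
    have h2 : (T : ℤ) ∣ K * (n + 1) + (pS α n + 1) - r' := hTN.trans hr'
    have h3 : r' - (pS α n + 1) = K * (n + 1) - (K * (n + 1) + (pS α n + 1) - r') := by ring
    rw [h3]
    exact dvd_sub (dvd_mul_of_dvd_left hK _) h2
  have h2 : r' - (pS α n + 1) ≠ 0 := by
    intro h3
    apply hB
    have h4 : K * (n + 1) = K * (n + 1) + (pS α n + 1) - r' := by linarith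
    rw [h4]
    exact hr'
  have h3 := le_abs_dvd T _ h1 h2
  have hTi : (n : ℤ) + 1 + ρ ≤ T := by exact_mod_cast hT
  have hpi : (pS α n : ℤ) ≤ n := by exact_mod_cast hpn
  have hp0 : (0 : ℤ) ≤ pS α n := by positivity
  have h0i : (n : ℤ) ≤ 2 * pS α n := by exact_mod_cast h0
  have hρ0 : (0 : ℤ) ≤ ρ := by positivity
  have h4 : (((n - pS α n + ρ : ℕ) : ℕ) : ℤ) ≤ |r'| := by
    push_cast
    rw [Nat.cast_sub hpn]
    rcases abs_cases (r' - (pS α n + 1)) with ⟨h5, h6⟩ | ⟨h5, h6⟩
    · have h7 := le_abs_self r'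
      linarith
    · have h7 := neg_abs_le r'
      linarith
  have h5 : sn N ((n - pS α n + ρ : ℕ) : ℤ) ≤ sn N 1 * |S| := by
    have h6 : sn N ((n - pS α n + ρ : ℕ) : ℤ) ≤ sn N |r'| := by
      rcases h4.lt_or_eq with h7 | h7
      · exact (sn_strict N _ |r'| (by positivity) h7 hr2').le
      · rw [h7]
    have h7 : sn N (K * (n + 1) + (pS α n + 1)) = -(sn N 1 * S) := by linarith
    rw [← hsr', h7, abs_neg, abs_mul, abs_of_pos hs1] at h6
    exact h6
  have h6 := sn_concave N (n - pS α n + ρ) T (by omega) (by omega) hTN2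
  have h7 : (1 + sn N T) * |S| ≤ ((n - pS α n + ρ : ℕ) : ℝ) := by
    push_cast
    linarith
  have h8 : sn N ((n - pS α n + ρ : ℕ) : ℤ) * (1 + sn N T) ≤
      sn N 1 * |S| * (1 + sn N T) := mul_le_mul_of_nonneg_right h5 (by linarith)
  have h9 : sn N 1 * |S| * (1 + sn N T) ≤ sn N 1 * ((n - pS α n + ρ : ℕ) : ℝ) := by
    have : sn N 1 * |S| * (1 + sn N T) = sn N 1 * ((1 + sn N T) * |S|) := by ring
    rw [this]
    exact mul_le_mul_of_nonneg_left h7 hs1.le
  linarith

end Pool.Agent.Helper62.OB
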