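import Mathlib
import Pool.Agent.Helper62.OB.Defs
import Pool.Agent.Helper62.OB.Trig
import Pool.Agent.Helper62.OB.TrigY
import Pool.Agent.Helper62.OB.St.Comb
import Pool.Agent.Helper62.OB.St.AlexKey

/-!
# Counting along the orbit
-/

set_option autoImplicit false

namespace Pool.Agent.Helper62.OB

open Finset

theorem xs_succ (w b t k : ℕ) : xs w b t (k + 1) = (cb b (xs w b t k) + t) % w := rfl

theorem xs_lt (w b t k : ℕ) (hw : 0 < w) : xs w b t k < w := by
  cases k with
  | zero => exact Nat.mod_lt _ hw
  | succ k => exact Nat.mod_lt _ hw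

theorem cb_lt {w b x : ℕ} (hb : b < w) (hx : x < w) : cb b x < w := by
  unfold cb
  split_ifs <;> omega

theorem xs_surj {w b t : ℕ} (hw : 0 < w) (h : Orb w b t) (r : ℕ) (hr : r < w) :
    ∃ k < w, xs w b t k = r := by
  have h1 : (range w).image (xs w b t) = range w := by
    apply eq_of_subset_of_card_le
    · intro x hx
      obtain ⟨k, _, rfl⟩ := mem_image.1 hx
      exact mem_range.2 (xs_lt w b t k hw)
    · rw [card_image_of_injOn]
      intro i hi j hj hij
      exact h.1 i (mem_range.1 hi) j (mem_range.1 hj) hij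
  have h2 : r ∈ (range w).image (xs w b t) := by
    rw [h1]
    exact mem_range.2 hr
  obtain ⟨k, hk, hk2⟩ := mem_image.1 h2
  exact ⟨k, mem_range.1 hk, hk2⟩

theorem xs_ne {w b t : ℕ} (h : Orb w b t) {k : ℕ} (hk : k < w - 1) : xs w b t k ≠ b := by
  intro h1
  have h2 := h.1 k (by omega) (w - 1) (by omega) (h1.trans h.2.symm)
  omega

theorem sum_ep {w b t : ℕ} (hb : b < w) (h : Orb w b t) : pS (ep w b t) (w - 1) = b := by
  have hw : 0 < w := by omega
  unfold pS ep
  rw [← card_filter]
  have h1 : ((range (w - 1)).filter fun j => xs w b t j < b).image (xs w b t) = range b := by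
    ext r
    rw [mem_image, mem_range]
    constructor
    · rintro ⟨k, hk, rfl⟩
      exact (mem_filter.1 hk).2
    · intro hr
      obtain ⟨k, hk, hk2⟩ := xs_surj hw h r (by omega)
      refine ⟨k, mem_filter.2 ⟨mem_range.2 ?_, by omega⟩, hk2⟩
      by_contra h3
      have h4 : k = w - 1 := by omega
      rw [h4, h.2] at hk2
      omega
  have h2 : (((range (w - 1)).filter fun j => xs w b t j < b).image (xs w b t)).card =
      ((range (w - 1)).filter fun j => xs w b t j < b).card := by
    apply card_image_of_injOn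
    intro i hi j hj hij
    have hi' := mem_range.1 (mem_filter.1 (mem_coe.1 hi)).1
    have hj' := mem_range.1 (mem_filter.1 (mem_coe.1 hj)).1
    exact h.1 i (by omega) j (by omega) hij
  rw [← h2, h1, card_range]

/-- the number of times the orbit passes `w` -/
def Wr (w b t i : ℕ) : ℕ := (xs w b t i + ep w b t i + t % w) / w

theorem xs_step {w b t : ℕ} (_hb : b < w) (h : Orb w b t) {i : ℕ} (hi : i < w - 1) :
    xs w b t (i + 1) + w * Wr w b t i = xs w b t i + ep w b t i + t % w := by
  have h1 := xs_ne h hi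
  have h2 : xs w b t (i + 1) = (xs w b t i + ep w b t i + t % w) % w := by
    rw [xs_succ]
    unfold cb ep
    rw [Nat.add_mod_mod]
    split_ifs with h3
    · rfl
    · rw [add_zero]
  rw [h2]
  exact Nat.mod_add_div _ _

theorem wrap_sum {w b t : ℕ} (hb : b < w) (h : Orb w b t) : ∀ m ≤ w - 1,
    xs w b t m + w * ∑ i ∈ range m, Wr w b t i = t % w + pS (ep w b t) m + m * (t % w) := by
  intro m
  induction m with
  | zero =>
    intro _
    simp [pS_zero, xs]
  | succ m ih =>
    intro hm
    have h1 := ih (by omega)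
    have h2 := xs_step hb h (show m < w - 1 by omega)
    rw [sum_range_succ, pS_succ, mul_add, add_mul, one_mul]
    omega

theorem wrap_total {w b t : ℕ} (hb : b < w) (h : Orb w b t) :
    ∑ i ∈ range (w - 1), Wr w b t i = t % w := by
  have h1 := wrap_sum hb h (w - 1) le_rfl
  rw [h.2, sum_ep hb h] at h1
  have hw : 0 < w := by omega
  have h2 : w * ∑ i ∈ range (w - 1), Wr w b t i = w * (t % w) := by
    have h3 : w * (t % w) = t % w + (w - 1) * (t % w) := by
      obtain ⟨v, rfl⟩ : ∃ v, w = v + 1 := ⟨w - 1, by omega⟩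
      rw [Nat.add_sub_cancel]
      ring
    rw [h3]
    omega
  exact Nat.eq_of_mul_eq_mul_left hw h2

theorem Wr_le {w b t : ℕ} (hb : b < w) (i : ℕ) : Wr w b t i ≤ 1 := by
  have hw : 0 < w := by omega
  unfold Wr
  have h1 := xs_lt w b t i hw
  have h2 := Nat.mod_lt t hw
  have h3 : xs w b t i + ep w b t i ≤ w - 1 + 1 := by
    unfold ep
    split_ifs <;> omega
  have h4 : (xs w b t i + ep w b t i + t % w) / w < 2 := by
    rw [Nat.div_lt_iff_lt_mul hw]
    have h5 : xs w b t i + ep w b t i < w + 0 ∨ ep w b t i = 0 := by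
      unfold ep
      split_ifs
      · left
        omega
      · right
        rfl
    rcases h5 with h5 | h5 <;> omega
  omega

theorem st_one_le (α : ℕ → ℕ) : st α 1 ≤ 1 := by
  unfold st
  exact (card_filter_le _ _).trans (by simp)

theorem st_succ_le (α : ℕ → ℕ) (n c : ℕ) (h : α (n + 1) = 0 → α n = 1 → 1 ≤ c) :
    st α (n + 1 + 1) ≤ st α (n + 1) + c := by
  rw [st_succ]
  by_cases h1 : α (n + 1) = 0 ∧ (n + 1 = 0 ∨ α (n + 1 - 1) = 1)
  · rw [if_pos h1]
    rcases h1 with ⟨h3, h4 | h4⟩
    · omega
    · rw [Nat.add_sub_cancel] at h4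
      have := h h3 h4
      omega
  · rw [if_neg h1]
    omega

/-- few runs of steps -/
theorem st_ones {w b t : ℕ} (hb : b < w) (hw2 : 2 ≤ w) (h : Orb w b t) :
    st (fun j => 1 - ep w b t j) (w - 1) ≤ t % w + 1 := by
  have key : ∀ m, m + 1 ≤ w - 1 → st (fun j => 1 - ep w b t j) (m + 1) ≤
      1 + ∑ i ∈ range m, Wr w b t i := by
    intro m
    induction m with
    | zero =>
      intro _
      exact (st_one_le _).trans (by omega)
    | succ m ih =>
      intro hm
      have h1 := ih (by omega)
      have h2 := st_succ_le (fun j => 1 - ep w b t j) m (Wr w b t m) (by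
        intro h3 h4
        have h5 := xs_step hb h (show m < w - 1 by omega)
        have h6 := xs_ne h (show m < w - 1 by omega)
        simp only [ep] at h3 h4 h5
        by_contra h7
        have h8 : Wr w b t m = 0 := by omega
        rw [h8] at h5
        (split_ifs at h3 h4 h5; all_goals omega))
      rw [sum_range_succ]
      omega
  obtain ⟨m, hm⟩ : ∃ m, w - 1 = m + 1 := ⟨w - 2, by omega⟩
  have h1 := key m hm.ge
  have h2 := wrap_total hb h
  rw [hm, sum_range_succ] at h2
  rw [hm]
  omega

/-- few runs of rests -/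
theorem st_zeros {w b t : ℕ} (hb : b < w) (hw2 : 2 ≤ w) (h : Orb w b t) :
    st (ep w b t) (w - 1) + t % w ≤ w := by
  have key : ∀ m, m + 1 ≤ w - 1 → st (ep w b t) (m + 1) + ∑ i ∈ range m, Wr w b t i ≤ m + 1 := by
    intro m
    induction m with
    | zero =>
      intro _
      have := st_one_le (ep w b t)
      rw [sum_range_zero]
      omega
    | succ m ih =>
      intro hm
      have h1 := ih (by omega)
      have h9 := Wr_le (t := t) hb m
      have h2 := st_succ_le (ep w b t) m (1 - Wr w b t m) (by
        intro h3 h4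
        have h5 := xs_step hb h (show m < w - 1 by omega)
        have h6 := Nat.mod_lt t (show 0 < w by omega)
        simp only [ep] at h3 h4 h5
        by_contra h7
        have h8 : Wr w b t m = 1 := by omega
        rw [h8] at h5
        (split_ifs at h3 h4 h5; all_goals omega))
      rw [sum_range_succ]
      omega
  obtain ⟨m, hm⟩ : ∃ m, w - 1 = m + 1 := ⟨w - 2, by omega⟩
  have h1 := key m hm.ge
  have h2 := wrap_total hb h
  have h9 := Wr_le (t := t) hb m
  rw [hm, sum_range_succ] at h2
  rw [hm]
  omega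

theorem pS_compl (w b t k : ℕ) :
    pS (fun j => 1 - ep w b t j) k + pS (ep w b t) k = k := by
  induction k with
  | zero => rfl
  | succ k ih =>
    rw [pS_succ, pS_succ]
    have h : ep w b t k ≤ 1 := by
      unfold ep
      split_ifs <;> omega
    omega

theorem ep_le (w b t k : ℕ) : ep w b t k ≤ 1 := by
  unfold ep
  split_ifs <;> omega

theorem q_pos {w b t : ℕ} (hb : b < w - 1) (h : Orb w b t) : 1 ≤ t % w := by
  by_contra h0
  have h0 : t % w = 0 := by omega
  have hw : 0 < w := by omega
  have key : ∀ k ≤ b, xs w b t k = k := by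
    intro k
    induction k with
    | zero => intro _; exact h0
    | succ k ih =>
      intro hk
      rw [xs_succ, ih (by omega)]
      unfold cb
      rw [if_pos (by omega), Nat.add_mod, h0, add_zero, Nat.mod_mod]
      exact Nat.mod_eq_of_lt (by omega)
  exact xs_ne h hb (key b le_rfl)

/-! ### The cyclic sequence -/

/-- the cyclic sequence -/
def rr (w b t : ℕ) : ℕ → ℕ
  | 0 => 0
  | k + 1 => cb b ((rr w b t k + t) % w)

theorem xs_rr (w b t k : ℕ) : xs w b t k = (rr w b t k + t) % w := by
  induction k with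
  | zero => simp [xs, rr]
  | succ k ih => rw [xs_succ, ih]; rfl

theorem rr_succ (w b t k : ℕ) : rr w b t (k + 1) = cb b (xs w b t k) := by
  rw [xs_rr]
  rfl

theorem rr_lt {w b t : ℕ} (hb : b < w) (k : ℕ) : rr w b t k < w := by
  cases k with
  | zero => change 0 < w; omega
  | succ k =>
    rw [rr_succ]
    exact cb_lt hb (xs_lt w b t k (by omega))

theorem rr_w {w b t : ℕ} (hb : b < w) (h : Orb w b t) : rr w b t w = 0 := by
  obtain ⟨v, rfl⟩ : ∃ v, w = v + 1 := ⟨w - 1, by omega⟩
  rw [rr_succ]
  have h1 := h.2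
  rw [Nat.add_sub_cancel] at h1
  rw [h1]
  simp [cb]

theorem rr_per {w b t : ℕ} (hb : b < w) (h : Orb w b t) (k : ℕ) :
    rr w b t (k + w) = rr w b t k := by
  induction k with
  | zero => rw [zero_add, rr_w hb h]; rfl
  | succ k ih =>
    rw [show k + 1 + w = (k + w) + 1 by ring]
    change cb b ((rr w b t (k + w) + t) % w) = cb b ((rr w b t k + t) % w)
    rw [ih]

theorem xs_mod {w b t : ℕ} (hb : b < w) (h : Orb w b t) (k : ℕ) :
    xs w b t k = xs w b t (k % w) := by
  have key : ∀ a c : ℕ, rr w b t (c + w * a) = rr w b t c := by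
    intro a c
    induction a with
    | zero => rfl
    | succ a ih => rw [show c + w * (a + 1) = (c + w * a) + w by ring, rr_per hb h, ih]
  have h1 := key (k / w) (k % w)
  rw [Nat.mod_add_div] at h1
  rw [xs_rr, xs_rr, h1]

theorem rr_inj {w b t : ℕ} (h : Orb w b t) (i : ℕ) (hi : i < w) (j : ℕ) (hj : j < w)
    (hij : rr w b t i = rr w b t j) : i = j :=
  h.1 i hi j hj (by rw [xs_rr, xs_rr, hij])

end Pool.Agent.Helper62.OB
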