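import Mathlib
import Pool.Agent.Helper62.OB.Trig

/-!
# Trigonometric sums: few steps
-/

set_option autoImplicit false

namespace Pool.Agent.Helper62.OB

open Finset

theorem x1 (N T : ℕ) (hN : 0 < N) (hTN : (T : ℤ) ∣ N) (K : ℤ) (hK : (T : ℤ) ∣ K) (α : ℕ → ℕ)
    (hα : ∀ j, α j ≤ 1) (n : ℕ) (hn : 2 * pS α n < T) (hQ : ∀ φ : ℤ, cS N K α (n + 1) φ = 0) :
    ¬ (N : ℤ) ∣ K ∧ (N : ℤ) ∣ K * (n + 1) ∧ ∀ j < n, α j = 1 → (N : ℤ) ∣ K * (j + 1) := by
  have hN0 : (0 : ℤ) < N := by exact_mod_cast hN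
  have hT0 : 0 < T := by omega
  have hTN' : (T : ℤ) ≤ N := Int.le_of_dvd hN0 hTN
  have hn' : 2 * (pS α n : ℤ) < T := by exact_mod_cast hn
  have hA0 : (0 : ℤ) ≤ pS α n := by positivity
  have hA : ¬ (N : ℤ) ∣ K := by
    intro h
    have h1 := hQ (-(pS α n : ℤ))
    have h2 : 0 < cS N K α (n + 1) (-(pS α n : ℤ)) := by
      unfold cS
      apply sum_pos
      · intro i hi
        have h3 : 2 * (K * i + pS α i) + -(pS α n : ℤ) = 2 * (K * i) + (2 * pS α i - pS α n) := by
          ring
        rw [h3, cn_period N hN _ _ (dvd_mul_of_dvd_left h _)]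
        apply cn_pos
        have h4 : (pS α i : ℤ) ≤ pS α n := by
          exact_mod_cast pS_mono α (Nat.lt_succ_iff.1 (mem_range.1 hi))
        have h5 : (0 : ℤ) ≤ pS α i := by positivity
        have h6 : |(2 * pS α i - pS α n : ℤ)| ≤ pS α n := abs_le.2 ⟨by linarith, by linarith⟩
        linarith
      · exact ⟨0, mem_range.2 (Nat.succ_pos n)⟩
    linarith
  have hN2 : 2 ≤ N := by
    by_contra h
    have h3 : N = 1 := by omega
    subst h3
    exact hA (one_dvd _)
  have hs1 : 0 < sn N 1 := sn_pos N 1 (by norm_num) (by exact_mod_cast hN2)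
  have hle : ∀ j < n, α j = 1 → (pS α j : ℤ) + 1 ≤ pS α n := by
    intro j hj h3
    have h4 : pS α (j + 1) ≤ pS α n := pS_mono α hj
    rw [pS_succ, h3] at h4
    exact_mod_cast h4
  have hB : (N : ℤ) ∣ K * (n + 1) := by
    by_contra h
    have e := e1 N K α hα (-(K * n) - pS α n) n
    rw [hQ, mul_zero] at e
    have a1 : K * (2 * n + 1) + 2 * pS α n + (-(K * n) - pS α n) = K * (n + 1) + pS α n := by ring
    have a2 : -K + (-(K * n) - pS α n) = -(K * (n + 1) + pS α n) := by ring
    rw [a1, a2, sn_neg] at e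
    have hc := sum_cn N (pS α n)
    rw [← wsum α hα (fun e => cn N (2 * e + 1 - pS α n)) n] at hc
    have hb : |∑ j ∈ range n, (α j : ℝ) *
        cn N (K * (2 * j + 1) + 2 * pS α j + 1 + (-(K * n) - pS α n))| ≤
        ∑ j ∈ range n, (α j : ℝ) * cn N (2 * pS α j + 1 - pS α n) := by
      refine (abs_sum_le_sum_abs _ _).trans (sum_le_sum ?_)
      intro j hj
      have hj' := mem_range.1 hj
      have h0 := hα j
      interval_cases h5 : α j
      · simp
      · rw [abs_mul]
        have h6 : K * (2 * j + 1) + 2 * pS α j + 1 + (-(K * n) - pS α n) =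
            K * (2 * j + 1 - n) + (2 * pS α j + 1 - pS α n) := by ring
        rw [h6]
        have h7 := hle j hj' h5
        have h8 : (0 : ℤ) ≤ pS α j := by positivity
        have h9 : |(2 * pS α j + 1 - pS α n : ℤ)| ≤ pS α n - 1 :=
          abs_le.2 ⟨by linarith, by linarith⟩
        have h10 := cn_le N T hN hTN (K * (2 * j + 1 - n)) (2 * pS α j + 1 - pS α n)
          (dvd_mul_of_dvd_left hK _) (by linarith)
        push_cast
        rw [abs_one]
        linarith
    obtain ⟨r, hr, hr2, hsr, -⟩ := red N hN (K * (n + 1) + pS α n)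
    have h1 : (T : ℤ) ∣ r - pS α n := by
      have h2 : (T : ℤ) ∣ K * (n + 1) + pS α n - r := hTN.trans hr
      have h3 : r - pS α n = K * (n + 1) - (K * (n + 1) + pS α n - r) := by ring
      rw [h3]
      exact dvd_sub (dvd_mul_of_dvd_left hK _) h2
    have h2 : r - pS α n ≠ 0 := by
      intro h3
      apply h
      have h4 : K * (n + 1) = K * (n + 1) + pS α n - r := by linarith
      rw [h4]
      exact hr
    have h3 := le_abs_dvd T _ h1 h2
    have h4 : |r - pS α n| ≤ |r| + |(pS α n : ℤ)| := abs_sub _ _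
    rw [abs_of_nonneg hA0] at h4
    have h5 := sn_strict N (pS α n) |r| hA0 (by linarith) hr2
    have h6 : |sn N (K * (n + 1) + pS α n)| ≤ sn N (pS α n) := by
      have h7 : sn N (K * (n + 1) + pS α n) = sn N 1 * ∑ j ∈ range n, (α j : ℝ) *
          cn N (K * (2 * j + 1) + 2 * pS α j + 1 + (-(K * n) - pS α n)) := by linarith
      rw [h7, abs_mul, abs_of_pos hs1]
      have h8 := mul_le_mul_of_nonneg_left hb hs1.le
      linarith
    linarith
  exact ⟨hA, hB, centered N T hTN K hK α hα n (by omega) hN hA hB (hQ _)⟩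

end Pool.Agent.Helper62.OB
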