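import Mathlib
import Pool.Agent.Helper62.OB.Count
import Pool.Agent.Helper62.OB.TrigX

/-!
# From the trigonometric conditions to divisibility
-/

set_option autoImplicit false

namespace Pool.Agent.Helper62.OB

open Finset

theorem order_exists (N : ℕ) (hN : 0 < N) (K : ℤ) (hK : ¬ (N : ℤ) ∣ K) :
    ∃ g : ℕ, 2 ≤ g ∧ ∀ k : ℕ, (N : ℤ) ∣ K * k ↔ g ∣ k := by
  have hd : 0 < Nat.gcd N K.natAbs := Nat.gcd_pos_of_pos_left _ hN
  obtain ⟨d, hdef⟩ : ∃ d, d = Nat.gcd N K.natAbs := ⟨_, rfl⟩
  rw [← hdef] at hd
  obtain ⟨g, hg⟩ : d ∣ N := hdef ▸ Nat.gcd_dvd_left _ _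
  obtain ⟨κ, hκ⟩ : d ∣ K.natAbs := hdef ▸ Nat.gcd_dvd_right _ _
  have hcop : Nat.Coprime g κ := by
    have h1 : Nat.gcd (d * g) (d * κ) = d := by rw [← hg, ← hκ, ← hdef]
    rw [Nat.gcd_mul_left] at h1
    exact Nat.eq_of_mul_eq_mul_left hd (h1.trans (mul_one d).symm)
  have key : ∀ k : ℕ, (N : ℤ) ∣ K * k ↔ g ∣ k := by
    intro k
    rw [Int.natCast_dvd, Int.natAbs_mul, Int.natAbs_natCast, hκ, hg, mul_assoc,
      Nat.mul_dvd_mul_iff_left hd]
    exact ⟨fun h => hcop.dvd_of_dvd_mul_left h, fun h => dvd_mul_of_dvd_right h _⟩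
  refine ⟨g, ?_, key⟩
  by_contra h
  have hg1 : g = 1 := by
    have : g ≠ 0 := by
      rintro rfl
      omega
    omega
  have := (key 1).2 (by rw [hg1])
  rw [Nat.cast_one, mul_one] at this
  exact hK this

theorem ep_one_iff (w b t k : ℕ) : ep w b t k = 1 ↔ xs w b t k < b := by
  unfold ep
  split_ifs with h
  · simp [h]
  · simp [h]

theorem condA {w b t g : ℕ} (hb : b < w) (h : Orb w b t) (hg : 2 ≤ g) (hgw : g ∣ w)
    (hα : ∀ j < w - 1, ep w b t j = 1 → g ∣ j + 1) : (b + 1) ∣ w ∧ (b + 1) ∣ t := by
  have hw : 0 < w := by omega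
  obtain ⟨n, hn⟩ := hgw
  have hn' : w = n * g := by rw [hn, mul_comm]
  -- all indices
  have hall : ∀ i, ¬ g ∣ i + 1 → b < xs w b t i := by
    intro i hi
    rw [xs_mod hb h i]
    have h1 := Nat.mod_lt i hw
    have h2 : ¬ g ∣ i % w + 1 := by
      intro h3
      apply hi
      have h4 := Nat.mod_add_div i w
      have h5 : i + 1 = (i % w + 1) + w * (i / w) := by omega
      rw [h5]
      exact dvd_add h3 (dvd_mul_of_dvd_left ⟨n, hn⟩ _)
    have h6 : i % w < w - 1 := by
      by_contra h7
      have h8 : i % w + 1 = w := by omega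
      rw [h8] at h2
      exact h2 ⟨n, hn⟩
    have h9 : ¬ xs w b t (i % w) < b := fun h10 =>
      h2 (hα _ h6 ((ep_one_iff _ _ _ _).2 h10))
    have h11 := xs_ne h h6
    omega
  have hcov0 : ∀ i, xs w b t i ≤ b → g ∣ i + 1 := by
    intro i hi
    by_contra h1
    have := hall i h1
    omega
  -- steps inside a block
  have hstep : ∀ k j, j < g → rr w b t (g * k + j) = (rr w b t (g * k) + j * t) % w := by
    intro k j
    induction j with
    | zero =>
      intro _
      rw [add_zero, zero_mul, add_zero]
      exact (Nat.mod_eq_of_lt (rr_lt hb _)).symm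
    | succ j ih =>
      intro hj
      have h1 := ih (by omega)
      have h2 : ¬ g ∣ g * k + j + 1 := by
        intro h3
        have h4 : g ∣ j + 1 := by
          rw [add_assoc] at h3
          exact (Nat.dvd_add_right (dvd_mul_right g k)).1 h3
        exact absurd (Nat.le_of_dvd (Nat.succ_pos j) h4) (by omega)
      have h3 := hall _ h2
      rw [← add_assoc, rr_succ]
      unfold cb
      rw [if_neg (by omega), if_neg (by omega), xs_rr, h1, Nat.mod_add_mod]
      congr 1
      ring
  have hblock : ∀ k, rr w b t (g * (k + 1)) = cb b ((rr w b t (g * k) + g * t) % w) := by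
    intro k
    have h1 := hstep k (g - 1) (by omega)
    have h2 : g * (k + 1) = (g * k + (g - 1)) + 1 := by
      rw [mul_add, mul_one]
      omega
    rw [h2, rr_succ, xs_rr, h1, Nat.mod_add_mod]
    congr 2
    have h3 : g * t = (g - 1) * t + t := by
      obtain ⟨g', rfl⟩ : ∃ g', g = g' + 1 := ⟨g - 1, by omega⟩
      rw [Nat.add_sub_cancel]
      ring
    rw [h3]
    ring
  have key := c4 w n g b (g * t) (fun k => rr w b t (g * k)) hn' hw hg hb rfl hblock
    (by
      rw [← hn]
      exact rr_w hb h)
    (by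
      intro i hi j hj hij
      have h1 : g * i < w := by
        rw [hn]
        exact Nat.mul_lt_mul_of_pos_left hi (by omega)
      have h2 : g * j < w := by
        rw [hn]
        exact Nat.mul_lt_mul_of_pos_left hj (by omega)
      exact Nat.eq_of_mul_eq_mul_left (by omega) (rr_inj h _ h1 _ h2 hij))
    (by
      intro r hr
      have hn0 : 0 < n := by
        rcases Nat.eq_zero_or_pos n with h1 | h1
        · rw [h1] at hn
          omega
        · exact h1
      rcases Nat.eq_zero_or_pos r with h1 | h1
      · exact ⟨0, hn0, by rw [h1]; rfl⟩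
      · obtain ⟨i, hi, hi2⟩ := xs_surj hw h (r - 1) (by omega)
        obtain ⟨k, hk⟩ := hcov0 i (by omega)
        have h2 : rr w b t (g * k) = r := by
          rw [← hk, rr_succ, hi2]
          unfold cb
          rw [if_pos (by omega)]
          omega
        have h3 : k ≤ n := by
          have h4 : g * k ≤ g * n := by rw [← hk, ← hn]; omega
          exact Nat.le_of_mul_le_mul_left h4 (by omega)
        rcases h3.lt_or_eq with h4 | h4
        · exact ⟨k, h4, h2⟩
        · rw [h4, ← hn, rr_w hb h] at h2
          omega)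
  have hd : g * (b + 1) ∣ w := key ▸ Nat.gcd_dvd_left _ _
  have hd2 : g * (b + 1) ∣ g * t := key ▸ Nat.gcd_dvd_right _ _
  exact ⟨(dvd_mul_left _ _).trans hd, Nat.dvd_of_mul_dvd_mul_left (by omega) hd2⟩

theorem condB {w b t g : ℕ} (hb : b < w) (h : Orb w b t) (hg : 2 ≤ g) (hgw : g ∣ w)
    (hα : ∀ j < w - 1, ep w b t j = 0 → g ∣ j + 1) : (w - b) ∣ w ∧ (w - b) ∣ (t + 1) := by
  have hw : 0 < w := by omega
  obtain ⟨n, hn⟩ := hgw
  have hn' : w = n * g := by rw [hn, mul_comm]
  have hall : ∀ i, ¬ g ∣ i + 1 → xs w b t i < b := by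
    intro i hi
    rw [xs_mod hb h i]
    have h1 := Nat.mod_lt i hw
    have h2 : ¬ g ∣ i % w + 1 := by
      intro h3
      apply hi
      have h4 := Nat.mod_add_div i w
      have h5 : i + 1 = (i % w + 1) + w * (i / w) := by omega
      rw [h5]
      exact dvd_add h3 (dvd_mul_of_dvd_left ⟨n, hn⟩ _)
    have h6 : i % w < w - 1 := by
      by_contra h7
      have h8 : i % w + 1 = w := by omega
      rw [h8] at h2
      exact h2 ⟨n, hn⟩
    by_contra h9
    apply h2
    apply hα _ h6
    unfold ep
    rw [if_neg h9]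
  have hcov0 : ∀ i, b ≤ xs w b t i → g ∣ i + 1 := by
    intro i hi
    by_contra h1
    have := hall i h1
    omega
  have hstep : ∀ k j, j < g → rr w b t (g * k + j) = (rr w b t (g * k) + j * (t + 1)) % w := by
    intro k j
    induction j with
    | zero =>
      intro _
      rw [add_zero, zero_mul, add_zero]
      exact (Nat.mod_eq_of_lt (rr_lt hb _)).symm
    | succ j ih =>
      intro hj
      have h1 := ih (by omega)
      have h2 : ¬ g ∣ g * k + j + 1 := by
        intro h3
        have h4 : g ∣ j + 1 := by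
          rw [add_assoc] at h3
          exact (Nat.dvd_add_right (dvd_mul_right g k)).1 h3
        exact absurd (Nat.le_of_dvd (Nat.succ_pos j) h4) (by omega)
      have h3 := hall _ h2
      rw [← add_assoc, rr_succ]
      unfold cb
      rw [if_pos h3]
      have h5 : xs w b t (g * k + j) + 1 = (xs w b t (g * k + j) + 1) % w :=
        (Nat.mod_eq_of_lt (by omega)).symm
      rw [h5, xs_rr, h1, Nat.mod_add_mod, add_assoc, Nat.mod_add_mod]
      congr 1
      ring
  -- the complementary sequence
  have hbl : ∀ k, (w - rr w b t (g * (k + 1))) % w =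
      cb (w - 1 - b) (((w - rr w b t (g * k)) % w + g * ((w - 1) * (t + 1))) % w) := by
    intro k
    have h1 := hstep k (g - 1) (by omega)
    have h2 : g * (k + 1) = (g * k + (g - 1)) + 1 := by
      rw [mul_add, mul_one]
      omega
    have h3 := xs_lt w b t (g * k + (g - 1)) hw
    have h4 : ((w - rr w b t (g * k)) % w + g * ((w - 1) * (t + 1))) % w =
        w - 1 - xs w b t (g * k + (g - 1)) := by
      have hx : xs w b t (g * k + (g - 1)) = (rr w b t (g * k) + (g - 1) * (t + 1) + t) % w := by
        rw [xs_rr, h1, Nat.mod_add_mod]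
      rw [hx]
      have h5 := rr_lt (t := t) hb (g * k)
      have h6 : ((g - 1) * (t + 1) + t) + 1 = g * (t + 1) := by
        obtain ⟨g', rfl⟩ : ∃ g', g = g' + 1 := ⟨g - 1, by omega⟩
        rw [Nat.add_sub_cancel]
        ring
      set y := (rr w b t (g * k) + (g - 1) * (t + 1) + t) % w with hy
      have h7 : y < w := Nat.mod_lt _ hw
      have h8 : y ≡ rr w b t (g * k) + (g - 1) * (t + 1) + t [MOD w] := Nat.mod_modEq _ _
      have h9 : (w - rr w b t (g * k)) % w + g * ((w - 1) * (t + 1)) ≡ w - 1 - y [MOD w] := by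
        apply Nat.ModEq.add_right_cancel' (y + 1)
        have h10 : w - 1 - y + (y + 1) = w := by omega
        rw [h10]
        have h11 : (w - rr w b t (g * k)) % w + g * ((w - 1) * (t + 1)) + (y + 1) ≡
            (w - rr w b t (g * k)) + g * ((w - 1) * (t + 1)) +
              ((rr w b t (g * k) + (g - 1) * (t + 1) + t) + 1) [MOD w] :=
          ((Nat.mod_modEq _ _).add_right _).add (h8.add_right 1)
        refine h11.trans ?_
        have h12 : (w - rr w b t (g * k)) + g * ((w - 1) * (t + 1)) +
              ((rr w b t (g * k) + (g - 1) * (t + 1) + t) + 1) = w + w * (g * (t + 1)) := by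
          have h13 : (rr w b t (g * k) + (g - 1) * (t + 1) + t) + 1 =
              rr w b t (g * k) + g * (t + 1) := by omega
          rw [h13]
          have h14 : g * ((w - 1) * (t + 1)) + g * (t + 1) = w * (g * (t + 1)) := by
            obtain ⟨w', rfl⟩ : ∃ w', w = w' + 1 := ⟨w - 1, by omega⟩
            rw [Nat.add_sub_cancel]
            ring
          omega
        rw [h12]
        have h15 : w * (g * (t + 1)) ≡ 0 [MOD w] := (Nat.modEq_zero_iff_dvd).2 (dvd_mul_right _ _)
        exact (h15.add_left w)
      have h16 : (w - 1 - y) % w = w - 1 - y := Nat.mod_eq_of_lt (by omega)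
      rw [← h16]
      exact h9
    rw [h4, h2, rr_succ]
    set y := xs w b t (g * k + (g - 1))
    unfold cb
    rcases lt_trichotomy y b with h5 | h5 | h5
    · rw [if_pos h5, if_neg (by omega), if_neg (by omega), Nat.mod_eq_of_lt (by omega)]
      omega
    · rw [if_neg (by omega), if_pos h5, if_neg (by omega), if_pos (by omega), Nat.sub_zero,
        Nat.mod_self]
    · rw [if_neg (by omega), if_neg (by omega), if_pos (by omega), Nat.mod_eq_of_lt (by omega)]
      omega
  have key := c4 w n g (w - 1 - b) (g * ((w - 1) * (t + 1)))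
    (fun k => (w - rr w b t (g * k)) % w) hn' hw hg (by omega)
    (by
      change (w - rr w b t (g * 0)) % w = 0
      rw [mul_zero]
      change (w - 0) % w = 0
      rw [Nat.sub_zero, Nat.mod_self]) hbl
    (by
      change (w - rr w b t (g * n)) % w = 0
      rw [← hn, rr_w hb h, Nat.sub_zero, Nat.mod_self])
    (by
      intro i hi j hj hij
      have h1 : g * i < w := by
        rw [hn]
        exact Nat.mul_lt_mul_of_pos_left hi (by omega)
      have h2 : g * j < w := by
        rw [hn]
        exact Nat.mul_lt_mul_of_pos_left hj (by omega)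
      have hij' : (w - rr w b t (g * i)) % w = (w - rr w b t (g * j)) % w := hij
      have h3 := rr_lt (t := t) hb (g * i)
      have h4 := rr_lt (t := t) hb (g * j)
      have h5 : rr w b t (g * i) = rr w b t (g * j) := by
        rcases Nat.eq_zero_or_pos (rr w b t (g * i)) with a | a
        · rcases Nat.eq_zero_or_pos (rr w b t (g * j)) with c | c
          · rw [a, c]
          · rw [a, Nat.sub_zero, Nat.mod_self, Nat.mod_eq_of_lt (by omega)] at hij'
            omega
        · rcases Nat.eq_zero_or_pos (rr w b t (g * j)) with c | c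
          · rw [c, Nat.sub_zero, Nat.mod_self, Nat.mod_eq_of_lt (by omega)] at hij'
            omega
          · rw [Nat.mod_eq_of_lt (by omega), Nat.mod_eq_of_lt (by omega)] at hij'
            omega
      exact Nat.eq_of_mul_eq_mul_left (by omega) (rr_inj h _ h1 _ h2 h5))
    (by
      intro r hr
      have hn0 : 0 < n := by
        rcases Nat.eq_zero_or_pos n with h1 | h1
        · rw [h1] at hn
          omega
        · exact h1
      rcases Nat.eq_zero_or_pos r with h1 | h1
      · refine ⟨0, hn0, ?_⟩
        change (w - rr w b t (g * 0)) % w = r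
        rw [mul_zero, h1]
        change (w - 0) % w = 0
        rw [Nat.sub_zero, Nat.mod_self]
      · obtain ⟨i, hi, hi2⟩ := xs_surj hw h (w - r) (by omega)
        obtain ⟨k, hk⟩ := hcov0 i (by omega)
        have h2 : rr w b t (g * k) = w - r := by
          rw [← hk, rr_succ, hi2]
          unfold cb
          rw [if_neg (by omega), if_neg (by omega)]
        have h3 : k ≤ n := by
          have h4 : g * k ≤ g * n := by rw [← hk, ← hn]; omega
          exact Nat.le_of_mul_le_mul_left h4 (by omega)
        rcases h3.lt_or_eq with h4 | h4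
        · refine ⟨k, h4, ?_⟩
          change (w - rr w b t (g * k)) % w = r
          rw [h2, Nat.mod_eq_of_lt (by omega)]
          omega
        · rw [h4, ← hn, rr_w hb h] at h2
          omega)
  have hB : w - 1 - b + 1 = w - b := by omega
  rw [hB] at key
  have hd : g * (w - b) ∣ w := key ▸ Nat.gcd_dvd_left _ _
  have hd2 : g * (w - b) ∣ g * ((w - 1) * (t + 1)) := key ▸ Nat.gcd_dvd_right _ _
  have h1 : (w - b) ∣ w := (dvd_mul_left _ _).trans hd
  have h2 : (w - b) ∣ (w - 1) * (t + 1) := Nat.dvd_of_mul_dvd_mul_left (by omega) hd2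
  refine ⟨h1, ?_⟩
  have hcop : Nat.Coprime (w - b) (w - 1) := by
    have h3 : Nat.Coprime w (w - 1) := by
      obtain ⟨v, rfl⟩ : ∃ v, w = v + 1 := ⟨w - 1, by omega⟩
      rw [Nat.add_sub_cancel]
      exact (Nat.coprime_self_add_left.2 (Nat.coprime_one_left v))
    exact Nat.Coprime.coprime_dvd_left h1 h3
  exact hcop.dvd_of_dvd_mul_left h2

end Pool.Agent.Helper62.OB
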