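import Mathlib
import Pool.Agent.Helper62.OB.Cond
import Pool.Agent.Helper62.OB.St.Dvd

/-!
# Roots of unity which are roots of the Alexander polynomial
-/

set_option autoImplicit false

namespace Pool.Agent.Helper62.OB

open Finset Polynomial

theorem root_cos (N : ℕ) (hN : 0 < N) (w : ℕ) (s : ℕ → ℕ)
    (h : cyclotomic N ℤ ∣ ∑ k ∈ range w, (X : ℤ[X]) ^ s k) (φ : ℤ) :
    ∑ k ∈ range w, cn N (2 * s k + φ) = 0 := by
  have hNr : (N : ℂ) ≠ 0 := by exact_mod_cast hN.ne'
  set y : ℂ := Complex.exp (2 * Real.pi * Complex.I / N) with hy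
  have hprim : IsPrimitiveRoot y N := Complex.isPrimitiveRoot_exp N hN.ne'
  have h0 : ∑ k ∈ range w, y ^ s k = 0 := by
    obtain ⟨Q, hQ⟩ := h
    have h1 := congrArg (fun p : ℤ[X] => (p.map (Int.castRingHom ℂ)).eval y) hQ
    simp only [Polynomial.map_mul, eval_mul, map_cyclotomic, Polynomial.map_sum,
      Polynomial.map_pow, map_X, eval_finsetSum, eval_pow, eval_X] at h1
    have h2 : (cyclotomic N ℂ).eval y = 0 := hprim.isRoot_cyclotomic hN
    rw [h1, h2, zero_mul]
  have h3 : ∀ k : ℕ, Complex.exp ((Real.pi / N * (φ : ℝ) : ℝ) * Complex.I) * y ^ k =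
      Complex.exp ((Real.pi / N * ((2 * k + φ : ℤ) : ℝ) : ℝ) * Complex.I) := by
    intro k
    rw [hy, ← Complex.exp_nat_mul, ← Complex.exp_add]
    congr 1
    push_cast
    field_simp
    ring
  have h4 : ∑ k ∈ range w, Complex.exp ((Real.pi / N * ((2 * s k + φ : ℤ) : ℝ) : ℝ) *
      Complex.I) = 0 := by
    have h5 : ∑ k ∈ range w, Complex.exp ((Real.pi / N * (φ : ℝ) : ℝ) * Complex.I) * y ^ s k =
        0 := by rw [← mul_sum, h0, mul_zero]
    rw [← h5]
    exact sum_congr rfl fun k _ => (h3 (s k)).symm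
  have h6 := congrArg Complex.re h4
  rw [Complex.re_sum, Complex.zero_re] at h6
  rw [← h6]
  apply sum_congr rfl
  intro k _
  rw [Complex.exp_ofReal_mul_I_re]
  rfl

theorem se_ge {w b t : ℕ} (ht : 1 ≤ t) (k : ℕ) :
    t + ep w b t 0 + 1 ≤ se w b t (k + 2) := by
  induction k with
  | zero =>
    rw [se_succ, se_succ]
    simp only [se]
    omega
  | succ k ih =>
    rw [show k + 1 + 2 = (k + 2) + 1 by ring, se_succ]
    omega

theorem P_form {w b t : ℕ} (hw : 2 ≤ w) (ht : 1 ≤ t) :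
    ∑ k ∈ range w, (X : ℤ[X]) ^ se w b t k = 1 + X ^ (t + ep w b t 0) +
      X ^ (t + ep w b t 0 + 1) *
        ∑ k ∈ range (w - 2), X ^ (se w b t (k + 2) - (t + ep w b t 0 + 1)) := by
  obtain ⟨v, rfl⟩ : ∃ v, w = v + 2 := ⟨w - 2, by omega⟩
  rw [sum_range_succ', sum_range_succ', Nat.add_sub_cancel, mul_sum]
  have h1 : ∀ k ∈ range v, (X : ℤ[X]) ^ se (v + 2) b t (k + 1 + 1) =
      X ^ (t + ep (v + 2) b t 0 + 1) *
        X ^ (se (v + 2) b t (k + 2) - (t + ep (v + 2) b t 0 + 1)) := by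
    intro k _
    rw [← pow_add]
    congr 1
    have := se_ge (w := v + 2) (b := b) ht k
    rw [show k + 1 + 1 = k + 2 by ring]
    omega
  rw [sum_congr rfl h1, se_succ]
  simp only [se, range_zero, sum_empty, zero_mul, add_zero, pow_zero, zero_add]
  ring

theorem se_eq (w b t k : ℕ) : (se w b t k : ℤ) = t * k + pS (ep w b t) k := by
  unfold se pS
  push_cast
  ring

theorem se_eq' (w b t k : ℕ) :
    (se w b t k : ℤ) = (t + 1) * k - pS (fun j => 1 - ep w b t j) k := by
  rw [se_eq]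
  have h := pS_compl w b t k
  have h' : (pS (fun j => 1 - ep w b t j) k : ℤ) + pS (ep w b t) k = k := by exact_mod_cast h
  linear_combination h'

theorem cond_of_cyc (w b t : ℕ) (hb : b < w) (ht : 1 ≤ t) (h : Orb w b t)
    (hreg : w < t ∨ 2 * b < t ∨ (t < b ∧ 2 * (w - 1 - b) < t + 1)) (M : Multiset ℕ)
    (hM : ∀ N ∈ M, 0 < N)
    (hP : ∑ k ∈ range w, (X : ℤ[X]) ^ se w b t k = (M.map (fun N => cyclotomic N ℤ)).prod ∨
      ∑ k ∈ range w, (X : ℤ[X]) ^ se w b t k = -(M.map (fun N => cyclotomic N ℤ)).prod) :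
    ((b + 1) ∣ w ∧ (b + 1) ∣ t) ∨ ((w - b) ∣ w ∧ (w - b) ∣ (t + 1)) := by
  rcases Nat.eq_zero_or_pos b with hb0 | hb0
  · left
    rw [hb0]
    exact ⟨one_dvd _, one_dvd _⟩
  by_cases hb1 : b = w - 1
  · right
    have : w - b = 1 := by omega
    rw [this]
    exact ⟨one_dvd _, one_dvd _⟩
  have hb2 : b < w - 1 := by omega
  have hw2 : 2 ≤ w := by omega
  obtain ⟨N, hNM, hN⟩ := exists_dvd M hM _ hP (t + ep w b t 0) (by omega) _ (P_form hw2 ht)
  have hN0 := hM N hNM
  have hdvd : cyclotomic N ℤ ∣ ∑ k ∈ range w, (X : ℤ[X]) ^ se w b t k := by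
    have h1 : cyclotomic N ℤ ∣ (M.map (fun N => cyclotomic N ℤ)).prod :=
      Multiset.dvd_prod (Multiset.mem_map_of_mem _ hNM)
    rcases hP with h2 | h2
    · rw [h2]
      exact h1
    · rw [h2]
      exact (dvd_neg).2 h1
  have hroot := root_cos N hN0 w (se w b t) hdvd
  have hwn : w - 1 + 1 = w := by omega
  have hwz : (((w - 1 : ℕ) : ℤ) + 1) = w := by
    have : (w - 1 : ℕ) + 1 = w := hwn
    exact_mod_cast this
  have hQ1 : ∀ φ : ℤ, cS N t (ep w b t) (w - 1 + 1) φ = 0 := by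
    intro φ
    rw [hwn, ← hroot φ]
    unfold cS
    exact sum_congr rfl fun k _ => by rw [se_eq]
  have hQ2 : ∀ φ : ℤ, cS N (-(t + 1)) (fun j => 1 - ep w b t j) (w - 1 + 1) φ = 0 := by
    intro φ
    rw [hwn, ← hroot (-φ)]
    unfold cS
    refine sum_congr rfl fun k _ => ?_
    rw [← cn_neg N (2 * (se w b t k : ℤ) + -φ), se_eq']
    congr 1
    ring
  have hsum := sum_ep hb h
  have hcompl := pS_compl w b t (w - 1)
  have hq := q_pos hb2 h
  have hqw := Nat.mod_lt t (show 0 < w by omega)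
  have hqb : t % w ≠ b := xs_ne h (show 0 < w - 1 by omega)
  have hdiv := Nat.mod_add_div t w
  have hep0 : ep w b t 0 = if t % w < b then 1 else 0 := rfl
  have hwt : w < t → w + t % w ≤ t := by
    intro h1
    have h2 : 1 ≤ t / w := by
      rw [Nat.one_le_div_iff (by omega)]
      omega
    have h3 : w * 1 ≤ w * (t / w) := Nat.mul_le_mul_left w h2
    omega
  have htw : ¬ w < t → t < w ∧ t % w = t := by
    intro h1
    rcases Nat.lt_or_ge t w with h2 | h2
    · exact ⟨h2, Nat.mod_eq_of_lt h2⟩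
    · have h3 : t = w := by omega
      rw [h3, Nat.mod_self] at hq
      omega
  have goA : ∀ (hdN : t ∣ N) (h2 : 2 * b < t),
      ((b + 1) ∣ w ∧ (b + 1) ∣ t) ∨ ((w - b) ∣ w ∧ (w - b) ∣ (t + 1)) := by
    intro hdN h2
    left
    obtain ⟨x1, x2, x3⟩ := x1 N t hN0 (by exact_mod_cast hdN) t (dvd_refl _) (ep w b t)
      (ep_le w b t) (w - 1) (by rw [hsum]; exact h2) hQ1
    obtain ⟨g, hg, hgk⟩ := order_exists N hN0 t x1
    refine condA hb h hg ?_ ?_
    · apply (hgk w).1
      rw [hwz] at x2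
      exact x2
    · intro j hj hj1
      apply (hgk (j + 1)).1
      exact_mod_cast x3 j hj hj1
  have goB : ∀ (hdN : t + 1 ∣ N) (h2 : 2 * (w - 1 - b) < t + 1),
      ((b + 1) ∣ w ∧ (b + 1) ∣ t) ∨ ((w - b) ∣ w ∧ (w - b) ∣ (t + 1)) := by
    intro hdN h2
    right
    obtain ⟨x1, x2, x3⟩ := x1 N (t + 1) hN0 (by exact_mod_cast hdN) (-(t + 1))
      (by push_cast; exact (dvd_neg).2 (dvd_refl _)) (fun j => 1 - ep w b t j)
      (fun j => by have := ep_le w b t j; omega) (w - 1) (by omega) hQ2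
    obtain ⟨g, hg, hgk⟩ := order_exists N hN0 _ x1
    refine condB hb h hg ?_ ?_
    · apply (hgk w).1
      rw [hwz] at x2
      exact x2
    · intro j hj hj1
      apply (hgk (j + 1)).1
      have := x3 j hj (by omega)
      exact_mod_cast this
  rcases Nat.lt_or_ge (2 * b) w with hc | hc
  · rcases Nat.lt_or_ge (t % w) b with hd | hd
    · -- a step at the beginning
      exfalso
      rw [hep0, if_pos hd] at hN
      have h1 : w < t := by
        by_contra h1
        obtain ⟨h2, h3⟩ := htw h1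
        omega
      have h2 := hwt h1
      exact y1 N (t + 1) hN0 (by exact_mod_cast hN) (-(t + 1))
        (by push_cast; exact (dvd_neg).2 (dvd_refl _)) (fun j => 1 - ep w b t j)
        (fun j => by have := ep_le w b t j; omega) (w - 1) (t % w + 1) (by omega) (by omega)
        (st_ones hb hw2 h) (by omega) hQ2
    · rw [hep0, if_neg (by omega), add_zero] at hN
      refine goA hN ?_
      omega
  · rcases Nat.lt_or_ge (t % w) b with hd | hd
    · rw [hep0, if_pos hd] at hN
      refine goB hN ?_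
      omega
    · exfalso
      rw [hep0, if_neg (by omega), add_zero] at hN
      have h1 : w < t := by
        by_contra h1
        obtain ⟨h2, h3⟩ := htw h1
        omega
      have h2 := hwt h1
      have h3 := st_zeros hb hw2 h
      exact y1 N t hN0 (by exact_mod_cast hN) t (dvd_refl _) (ep w b t)
        (ep_le w b t) (w - 1) (w - t % w) (by omega) (by omega) (by omega) (by omega) hQ1

end Pool.Agent.Helper62.OB
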