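import Mathlib
import Pool.Agent.Helper62.OB.St.AlexKey

/-!
# From Laurent polynomials to polynomials
-/

set_option autoImplicit false

namespace Pool.Agent.Helper62.OB

open Polynomial LaurentPolynomial

theorem eq_of_toLaurent_eq {P Q : ℤ[X]} (hP : P.coeff 0 ≠ 0) (hQ : Q.coeff 0 ≠ 0) (k : ℤ)
    (h : toLaurent P = T k * toLaurent Q) : P = Q := by
  rcases le_total 0 k with hk | hk
  · obtain ⟨n, rfl⟩ := Int.eq_ofNat_of_zero_le hk
    have h1 : P = X ^ n * Q := by
      apply toLaurent_injective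
      rw [map_mul, toLaurent_X_pow, h]
    rcases Nat.eq_zero_or_pos n with h2 | h2
    · rw [h1, h2, pow_zero, one_mul]
    · exfalso
      apply hP
      rw [h1, coeff_X_pow_mul', if_neg (by omega)]
  · obtain ⟨n, hn⟩ := Int.eq_ofNat_of_zero_le (neg_nonneg.mpr hk)
    have h1 : Q = X ^ n * P := by
      apply toLaurent_injective
      rw [map_mul, toLaurent_X_pow, h, ← mul_assoc, ← T_add, ← hn,
        neg_add_cancel, T_zero, one_mul]
    rcases Nat.eq_zero_or_pos n with h2 | h2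
    · rw [h1, h2, pow_zero, one_mul]
    · exfalso
      apply hQ
      rw [h1, coeff_X_pow_mul', if_neg (by omega)]

theorem upToUnit_poly {P Q : ℤ[X]} (hP : P.coeff 0 ≠ 0) (hQ : Q.coeff 0 ≠ 0)
    (h : UpToUnit (toLaurent P) (toLaurent Q)) : P = Q ∨ P = -Q := by
  obtain ⟨k, h1 | h1⟩ := h
  · left
    exact eq_of_toLaurent_eq hP hQ k h1
  · right
    apply eq_of_toLaurent_eq hP (by rwa [coeff_neg, neg_ne_zero]) k
    rw [h1, map_neg, mul_neg]

theorem UpToUnit.mul_left {f g : ℤ[T;T⁻¹]} (c : ℤ[T;T⁻¹]) (h : UpToUnit f g) :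
    UpToUnit (c * f) (c * g) := by
  obtain ⟨k, h1 | h1⟩ := h
  · exact ⟨k, Or.inl (by rw [h1]; ring)⟩
  · exact ⟨k, Or.inr (by rw [h1]; ring)⟩

theorem cyclotomicZ_coeff_zero_ne (N : ℕ) : (cyclotomic N ℤ).coeff 0 ≠ 0 := by
  rcases Nat.lt_or_ge 1 N with h | h
  · rw [cyclotomic_coeff_zero _ h]; exact one_ne_zero
  · interval_cases N
    · simp
    · simp [cyclotomic_one]

theorem multisetZ_coeff_zero_ne (M : Multiset ℕ) :
    ((M.map (fun N => cyclotomic N ℤ)).prod).coeff 0 ≠ 0 := by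
  induction M using Multiset.induction_on with
  | empty => simp
  | cons a s ih =>
    rw [Multiset.map_cons, Multiset.prod_cons, mul_coeff_zero]
    exact mul_ne_zero (cyclotomicZ_coeff_zero_ne a) ih

theorem P_of_cyc (m b t : ℕ) (hb : b ≤ m) (ht : 1 ≤ t) (h : Orb (m + 1) b t)
    (hc : IsCyclotomicProduct (alexander (oneBridge m b t))) :
    ∃ M : Multiset ℕ, (∀ N ∈ M, 0 < N) ∧
      (∑ k ∈ Finset.range (m + 1), (X : ℤ[X]) ^ se (m + 1) b t k =
        (M.map (fun N => cyclotomic N ℤ)).prod ∨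
      ∑ k ∈ Finset.range (m + 1), (X : ℤ[X]) ^ se (m + 1) b t k =
        -(M.map (fun N => cyclotomic N ℤ)).prod) := by
  obtain ⟨M, hM, hU⟩ := hc
  refine ⟨((m + 1).divisors.erase 1).val + M, ?_, ?_⟩
  · intro N hN
    rcases Multiset.mem_add.1 hN with h1 | h1
    · exact Nat.pos_of_mem_divisors (Finset.mem_of_mem_erase h1)
    · exact hM N h1
  · have hG : (∑ i ∈ Finset.range (m + 1), (T (i : ℤ) : ℤ[T;T⁻¹])) =
        toLaurent (((((m + 1).divisors.erase 1).val).map (fun N => cyclotomic N ℤ)).prod) := by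
      have h1 := prod_cyclotomic_eq_geom_sum (Nat.succ_pos m) ℤ
      have h2 : ((((m + 1).divisors.erase 1).val).map (fun N => cyclotomic N ℤ)).prod =
          ∑ i ∈ Finset.range (m + 1), (X : ℤ[X]) ^ i := by
        rw [← h1]
        rfl
      rw [h2, map_sum]
      exact Finset.sum_congr rfl fun i _ => by rw [toLaurent_X_pow]
    have hP : toLaurent (∑ k ∈ Finset.range (m + 1), (X : ℤ[X]) ^ se (m + 1) b t k) =
        ∑ k ∈ Finset.range (m + 1), T (se (m + 1) b t k : ℤ) := by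
      rw [map_sum]
      exact Finset.sum_congr rfl fun i _ => by rw [toLaurent_X_pow]
    have h3 := alex_key m b t hb ht h
    have h4 := UpToUnit.mul_left (∑ i ∈ Finset.range (m + 1), (T (i : ℤ) : ℤ[T;T⁻¹])) hU
    rw [h3, ← hP, hG, ← map_mul, ← Multiset.prod_add, ← Multiset.map_add] at h4
    refine upToUnit_poly ?_ (multisetZ_coeff_zero_ne _) h4
    rw [finsetSum_coeff, Finset.sum_eq_single 0]
    · simp [se]
    · intro k hk hk0
      rw [coeff_X_pow, if_neg]
      have h5 : 1 ≤ se (m + 1) b t k := by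
        obtain ⟨k', rfl⟩ : ∃ k', k = k' + 1 := ⟨k - 1, by omega⟩
        rw [se_succ]
        omega
      omega
    · intro h5
      simp at h5

end Pool.Agent.Helper62.OB
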