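import Mathlib
import Pool.Agent.Helper62.OB.Count
import Pool.Agent.Helper62.OB.St.BraidAlg
import Pool.Agent.Helper62.OB.St.GroupLemma

/-!
# 1-bridge braids which are cables of torus knots
-/

set_option autoImplicit false

namespace Pool.Agent.Helper62.OB

theorem sameClosure_conj (m : ℕ) (a h : BraidGroup m) : SameClosure ⟨m, a⟩ ⟨m, h * a * h⁻¹⟩ :=
  Relation.EqvGen.rel _ _ (MarkovMove.conj m a h)

theorem iter_conj {m : ℕ} {a b h : BraidGroup m} (hb : b = h * a * h⁻¹)
    (ha : IsIterTorus ⟨m, a⟩) : IsIterTorus ⟨m, b⟩ := by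
  subst hb
  exact IsIterTorus.markov _ _ (sameClosure_conj m a h) ha

theorem iter_conj' {m : ℕ} {a b h : BraidGroup m} (hb : b = h * a * h⁻¹)
    (hbt : IsIterTorus ⟨m, b⟩) : IsIterTorus ⟨m, a⟩ := by
  subst hb
  exact IsIterTorus.markov _ _ (Relation.EqvGen.symm _ _ (sameClosure_conj m a h)) hbt

theorem exists_word (μ k : ℕ) (hk : k ≤ μ) : ∃ L : List (Fin μ × Bool),
    word L = rn μ 0 k ∧ ∀ n M, cabled n M L = bw n M k := by
  induction k with
  | zero => exact ⟨[], rfl, fun _ _ => rfl⟩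
  | succ k ih =>
    obtain ⟨L, h1, h2⟩ := ih (by omega)
    refine ⟨(⟨k, by omega⟩, true) :: L, ?_, ?_⟩
    · have h3 : word ((⟨k, by omega⟩, true) :: L) = sigma (⟨k, by omega⟩ : Fin μ) * word L := by
        simp [word]
      rw [h3, h1]
      have h4 : rn μ 0 (k + 1) = sg μ (0 + k) * rn μ 0 k := rfl
      rw [h4, zero_add, sg, dif_pos (by omega)]
    · intro n M
      have h3 : cabled n M ((⟨k, by omega⟩, true) :: L : List (Fin μ × Bool)) =
          blk n M k * cabled n M L := by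
        simp [cabled]
      rw [h3, h2]
      rfl

theorem exists_word_pow (μ t : ℕ) : ∃ L : List (Fin μ × Bool),
    word L = rn μ 0 μ ^ t ∧ ∀ n M, cabled n M L = bw n M μ ^ t := by
  obtain ⟨L, h1, h2⟩ := exists_word μ μ le_rfl
  induction t with
  | zero => exact ⟨[], by simp [word], fun _ _ => by simp [cabled]⟩
  | succ t ih =>
    obtain ⟨L', h3, h4⟩ := ih
    refine ⟨L' ++ L, ?_, ?_⟩
    · rw [pow_succ, ← h3, ← h1]
      simp [word]
    · intro n M
      rw [pow_succ, ← h4, ← h2]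
      simp [cabled]

theorem torus_iter (μ t : ℕ) (h : Nat.Coprime (μ + 1) t) : IsIterTorus ⟨μ, rn μ 0 μ ^ t⟩ := by
  have h1 := IsIterTorus.cable 0 (μ + 1) μ t [] (Nat.succ_pos μ) (by ring)
    (Nat.isCoprime_iff_coprime.2 h) IsIterTorus.unknot
  simpa [cabled] using h1

/-- the cable -/
theorem cable_iter (m v μ t₀ : ℕ) (hv : 1 ≤ v) (hμ : 1 ≤ μ) (hw : m + 1 = v * μ)
    (hcop : Nat.Coprime t₀ μ) (κ : ℤ) (hκ : IsCoprime (v : ℤ) (κ + v * t₀)) :
    IsIterTorus ⟨m, rn m 0 (v - 1) ^ κ * (rn m 0 m ^ v) ^ t₀⟩ := by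
  obtain ⟨h, hh⟩ := conj_lemma (rn m 0 (v - 1)) (rn m 0 m ^ v) v μ t₀ hμ κ hcop
    (by
      intro x
      rw [← pow_mul, ← hw]
      exact central m x)
    (fun s hs s' hs' => commF m v μ hv hw s s' hs hs')
    (fun s hs => commC m v μ hv hw s hs)
  have hX : rn m 0 m ^ v * (rn m 0 (v - 1) ^ v)⁻¹ = bw v m (μ - 1) := by
    rw [pow_eq m v μ hv hμ hw, mul_inv_cancel_right]
  rw [hX] at hh
  refine iter_conj' hh ?_
  -- the braid `c^k X^t₀` is conjugate to `X^t₀ c^k`
  obtain ⟨L, h1, h2⟩ := exists_word_pow (μ - 1) t₀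
  have h3 : IsIterTorus ⟨μ - 1, word L⟩ := by
    rw [h1]
    apply torus_iter
    rw [Nat.sub_add_cancel hμ]
    exact hcop.symm
  have h4 := IsIterTorus.cable (μ - 1) v m (κ + v * t₀) L hv
    (by rw [Nat.sub_add_cancel hμ]; exact hw) hκ h3
  rw [h2] at h4
  refine iter_conj (h := rn m 0 (v - 1) ^ (κ + v * t₀)) ?_ h4
  group

theorem oneBridge_B (m b t : ℕ) (hb : b ≤ m) :
    oneBridge m b t = (rn m b (m - b))⁻¹ * rn m 0 m ^ (t + 1) := by
  have h1 : rn m 0 m = rn m b (m - b) * rn m 0 b := by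
    have h2 := rn_add m 0 b (m - b)
    rw [zero_add, Nat.add_sub_cancel' hb] at h2
    exact h2
  have h3 : rn m 0 b = (rn m b (m - b))⁻¹ * rn m 0 m := by
    rw [h1]
    group
  unfold oneBridge
  rw [h3, mul_assoc, ← pow_succ']

theorem coprimeA {w b t μ t₀ : ℕ} (h : Orb w b t) (hw : w = (b + 1) * μ) (hμ : 1 ≤ μ)
    (ht : t = (b + 1) * t₀) : Nat.Coprime t₀ μ := by
  have hw0 : 0 < w := by
    rw [hw]
    positivity
  have key : ∀ k, xs w b t k / (b + 1) = ((k + 1) * t₀) % μ := by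
    intro k
    induction k with
    | zero =>
      change t % w / (b + 1) = _
      rw [hw, ht, Nat.mul_mod_mul_left, Nat.mul_div_cancel_left _ (Nat.succ_pos b)]
      ring_nf
    | succ k ih =>
      rw [xs_succ, ht, hw, Nat.mod_mul_right_div_self, Nat.add_mul_div_left _ _ (Nat.succ_pos b),
        ← hw, ← ht]
      have h1 : cb b (xs w b t k) / (b + 1) = xs w b t k / (b + 1) := by
        unfold cb
        split_ifs with h2 h3
        · rw [Nat.div_eq_of_lt (by omega), Nat.div_eq_of_lt (by omega)]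
        · rw [h3, Nat.zero_div, Nat.div_eq_of_lt (by omega)]
        · rfl
      rw [h1, ih, Nat.mod_add_mod]
      congr 1
      ring
  rcases Nat.lt_or_ge 1 μ with h1 | h1
  · obtain ⟨k, _, hk⟩ := xs_surj hw0 h (b + 1) (by
      rw [hw]
      exact (Nat.lt_mul_iff_one_lt_right (Nat.succ_pos b)).2 h1)
    have h2 := key k
    rw [hk, Nat.div_self (Nat.succ_pos b)] at h2
    apply Nat.coprime_of_mul_modEq_one (k + 1)
    change t₀ * (k + 1) % μ = 1 % μ
    rw [mul_comm, ← h2, Nat.mod_eq_of_lt h1]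
  · have : μ = 1 := by omega
    rw [this]
    exact Nat.coprime_one_right _

theorem modEq_of_eq {n a c : ℕ} (h : a = c) : a ≡ c [MOD n] := by rw [h]

theorem coprimeB {w b t v μ t₀ : ℕ} (h : Orb w b t) (hb : b < w) (hv : v = w - b)
    (hw : w = v * μ) (ht : t + 1 = v * t₀) : Nat.Coprime t₀ μ := by
  have hw0 : 0 < w := by omega
  have hv0 : 0 < v := by omega
  have hμ : 1 ≤ μ := by
    rcases Nat.eq_zero_or_pos μ with h1 | h1
    · rw [h1] at hw
      omega
    · exact h1
  have ht0 : 1 ≤ t₀ := by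
    rcases Nat.eq_zero_or_pos t₀ with h1 | h1
    · rw [h1] at ht
      omega
    · exact h1
  have hbv : b = v * (μ - 1) := by
    have h1 : v * μ = v * (μ - 1) + v := by
      obtain ⟨μ', rfl⟩ : ∃ μ', μ = μ' + 1 := ⟨μ - 1, by omega⟩
      rw [Nat.add_sub_cancel]
      ring
    omega
  have htv : t / v = t₀ - 1 := by
    have h1 : t = v * (t₀ - 1) + (v - 1) := by
      obtain ⟨t', rfl⟩ : ∃ t', t₀ = t' + 1 := ⟨t₀ - 1, by omega⟩
      rw [Nat.add_sub_cancel]
      have : v * (t' + 1) = v * t' + v := by ring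
      omega
    rw [h1, Nat.mul_add_div hv0, Nat.div_eq_of_lt (by omega : v - 1 < v), add_zero]
  have key : ∀ k, xs w b t k / v + 1 ≡ (k + 1) * t₀ [MOD μ] := by
    intro k
    induction k with
    | zero =>
      change t % w / v + 1 ≡ _ [MOD μ]
      rw [hw, Nat.mod_mul_right_div_self, htv, zero_add, one_mul]
      have h1 : (t₀ - 1) % μ + 1 ≡ (t₀ - 1) + 1 [MOD μ] := (Nat.mod_modEq _ _).add_right 1
      rw [Nat.sub_add_cancel ht0] at h1
      exact h1
    | succ k ih =>
      have h1 : xs w b t (k + 1) / v = ((cb b (xs w b t k) + t) / v) % μ := by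
        rw [xs_succ]
        conv_lhs => rw [hw]
        rw [Nat.mod_mul_right_div_self, ← hw]
      rw [h1]
      have h2 : ((cb b (xs w b t k) + t) / v) % μ + 1 ≡ (cb b (xs w b t k) + t) / v + 1 [MOD μ] :=
        (Nat.mod_modEq _ _).add_right 1
      refine h2.trans ?_
      have h3 : (cb b (xs w b t k) + t) / v + 1 ≡ xs w b t k / v + 1 + t₀ [MOD μ] := by
        unfold cb
        split_ifs with h4 h5
        · have h6 : xs w b t k + 1 + t = xs w b t k + v * t₀ := by omega
          rw [h6, Nat.add_mul_div_left _ _ hv0]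
          apply modEq_of_eq
          ring
        · rw [h5, zero_add, htv, hbv, Nat.mul_div_cancel_left _ hv0, Nat.sub_add_cancel hμ,
            Nat.sub_add_cancel ht0]
          change t₀ % μ = (μ + t₀) % μ
          rw [Nat.add_mod_left]
        · have h6 : xs w b t k + t = (xs w b t k - 1) + v * t₀ := by omega
          have h7 := xs_lt w b t k hw0
          have h8 : (xs w b t k - 1) / v = xs w b t k / v := by
            have h9 : xs w b t k / v = μ - 1 := by
              apply Nat.div_eq_of_lt_le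
              · rw [mul_comm, ← hbv]
                omega
              · rw [Nat.sub_add_cancel hμ, mul_comm, ← hw]
                exact h7
            have h10 : (xs w b t k - 1) / v = μ - 1 := by
              apply Nat.div_eq_of_lt_le
              · rw [mul_comm, ← hbv]
                omega
              · rw [Nat.sub_add_cancel hμ, mul_comm, ← hw]
                omega
            rw [h9, h10]
          rw [h6, Nat.add_mul_div_left _ _ hv0, h8]
          apply modEq_of_eq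
          ring
      refine h3.trans ((ih.add_right t₀).trans (modEq_of_eq ?_))
      ring
  obtain ⟨k, _, hk⟩ := xs_surj hw0 h 0 hw0
  have h2 := key k
  rw [hk, Nat.zero_div, zero_add] at h2
  apply Nat.coprime_of_mul_modEq_one (k + 1)
  rw [mul_comm]
  exact h2.symm

theorem iter_of_cond (m b t : ℕ) (hb : b ≤ m) (h : Orb (m + 1) b t)
    (hc : ((b + 1) ∣ (m + 1) ∧ (b + 1) ∣ t) ∨ ((m + 1 - b) ∣ (m + 1) ∧ (m + 1 - b) ∣ (t + 1))) :
    IsIterTorus ⟨m, oneBridge m b t⟩ := by
  rcases hc with ⟨⟨μ, hμ⟩, ⟨t₀, ht₀⟩⟩ | ⟨⟨μ, hμ⟩, ⟨t₀, ht₀⟩⟩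
  · have hμ1 : 1 ≤ μ := by
      rcases Nat.eq_zero_or_pos μ with h1 | h1
      · rw [h1] at hμ
        omega
      · exact h1
    have hcop := coprimeA h hμ hμ1 ht₀
    have h1 := cable_iter m (b + 1) μ t₀ (by omega) hμ1 hμ hcop 1
      ⟨-t₀, 1, by push_cast; ring⟩
    rw [Nat.add_sub_cancel, zpow_one, ← pow_mul, ← ht₀] at h1
    exact h1
  · have hμ1 : 1 ≤ μ := by
      rcases Nat.eq_zero_or_pos μ with h1 | h1
      · rw [h1] at hμ
        omega
      · exact h1
    have hcop := coprimeB h (by omega) rfl hμ ht₀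
    have h1 := cable_iter m (m + 1 - b) μ t₀ (by omega) hμ1 hμ hcop (-1)
      ⟨t₀, -1, by push_cast; ring⟩
    rw [zpow_neg_one, ← pow_mul, ← ht₀, show m + 1 - b - 1 = m - b by omega] at h1
    -- conjugate by a power of `D`
    have h2 := rn_shift m 0 (m - b) b (by omega)
    rw [zero_add] at h2
    have h3 : rn m b (m - b) = (rn m 0 m ^ b)⁻¹ * rn m 0 (m - b) * rn m 0 m ^ b := by
      rw [mul_assoc, h2, inv_mul_cancel_left]
    refine iter_conj (h := (rn m 0 m ^ b)⁻¹) ?_ h1
    rw [oneBridge_B m b t hb, h3]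
    have h4 : rn m 0 m ^ b * rn m 0 m ^ (t + 1) = rn m 0 m ^ (t + 1) * rn m 0 m ^ b := by
      rw [← pow_add, ← pow_add, add_comm]
    rw [mul_inv_rev, mul_inv_rev, inv_inv]
    simp only [mul_assoc]
    rw [h4]

end Pool.Agent.Helper62.OB
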